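import Pool.Agent.Lib.MP_688fd0_co.SQ3.Iface
import Pool.Agent.Lib.MP_688fd0_co.SQ3.Blocks

/-!
BLOCKS (helper62's `blocks2`) in the form of the interface.
-/

set_option autoImplicit false

namespace Pool.Agent.Lib.MP_688fd0_co.SQ3

theorem blocks : BlocksS := by
  intro Q _ _ _ B U Λ ln d cl ι _ _ rk h1 h2 h3 h4 h5 κ _ π hπ h g X X' L₀ u₀ u₁ xs hV hX hg hg' hdir hP hT
  exact blocks2 U ln d cl rk h1 h2 h3 h4 h5 π hπ h X X' L₀ u₀ u₁ xs hV hX g (fun k => ⟨hg k, hg' k⟩) hdir hP hT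

end Pool.Agent.Lib.MP_688fd0_co.SQ3
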