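import Pool.Agent.Lib.MP_688fd0_co.SQ3.H23.FinalDefs
import Pool.Agent.Lib.MP_688fd0_co.SQ3.H41.Gn
import Pool.Agent.Lib.MP_688fd0_co.SQ2.H23.Final
import Pool.Agent.Lib.MP_688fd0_co.SQ2.H41.Gns

/-!
FINAL-E: listing sequences in groups of good order, and the density.
-/

set_option autoImplicit false

namespace Pool.Agent.Lib.MP_688fd0_co.SQ3

open Pool.Agent.Lib.MP_688fd0_co.OSF
open Subgroup

universe u

theorem Good.dvd {c n P : ℕ} (h : Good c n P) : P ∣ n := by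
  obtain ⟨k, m, hc, hP, -⟩ := h
  rw [hc.eq]
  exact (Nat.dvd_of_mem_primeFactors hP).trans (Nat.dvd_mul_left m k)

theorem Good.prime {c n P : ℕ} (h : Good c n P) : P.Prime := by
  obtain ⟨k, m, hc, hP, -⟩ := h
  exact Nat.prime_of_mem_primeFactors hP

theorem Good.sq {c n P : ℕ} (h : Good c n P) : ¬ P ^ 2 ∣ n := by
  obtain ⟨k, m, hc, hP, -⟩ := h
  intro h2
  have hPp := Nat.prime_of_mem_primeFactors hP
  have hPm := Nat.dvd_of_mem_primeFactors hP
  have h3 : (P ^ 2).Coprime k :=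
    Nat.Coprime.pow_left 2 (Nat.Coprime.coprime_dvd_left hPm hc.cop.symm)
  rw [hc.eq] at h2
  have h4 := h3.dvd_of_dvd_mul_left h2
  have h5 := hc.sq P (by rw [← pow_two]; exact h4)
  exact hPp.one_lt.ne' (Nat.isUnit_iff.1 h5)

/-- The theorem for a prime which is centralised or inverted. -/
theorem listingE (hM : MainS) : ∃ c : ℕ, ∀ (G : Type u) [Group G] [Finite G] (P : ℕ), Good c (Nat.card G) P →
    (∃ y : G, orderOf y = P ∧ ∀ g, g * y * g⁻¹ = y ∨ g * y * g⁻¹ = y⁻¹) →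
    ∀ A : Set G, (∀ x ∈ A, x⁻¹ ∈ A) → closure A = ⊤ → (∃ a ∈ A, P ∣ orderOf a) → Lst A := by
  obtain ⟨c, hM⟩ := hM
  refine ⟨c, ?_⟩
  intro G _ _ P hn ⟨y, hy, hact⟩ A hA hgen hPA
  obtain ⟨k, m, hD, hP, hPb⟩ := hn
  obtain ⟨H, hH, hf, ⟨e⟩⟩ : ∃ (H : Type) (_ : Group H) (_ : Finite H), Nonempty (G ≃* H) :=
    ⟨Shrink.{0} G, inferInstance, Finite.of_equiv G (equivShrink.{0} G),
      ⟨(Shrink.mulEquiv : Shrink.{0} G ≃* G).symm⟩⟩
  have hcard : Nat.card G = Nat.card H := Nat.card_congr e.toEquiv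
  have hkm : Nat.card G = k * m := hD.eq
  have hkm' : Nat.card H = k * m := hcard ▸ hkm
  have hD' : SQ2.CutD (k * m) k m := hkm ▸ hD.toCutD
  have hact' : ∀ g : H, g * e y * g⁻¹ = e y ∨ g * e y * g⁻¹ = (e y)⁻¹ := by
    intro g
    obtain ⟨g, rfl⟩ := e.surjective g
    rw [← map_mul, ← map_inv, ← map_mul, ← map_inv]
    rcases hact g with h | h
    · exact Or.inl (congrArg e h)
    · exact Or.inr (congrArg e h)
  obtain ⟨eps, N, C, -, -, hNC⟩ := gn_exists hkm' hD' (by rw [← hkm]; exact hD.marg) hP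
    (y := e y) (by rw [← hy]; exact orderOf_injective e.toMonoidHom e.injective y) hact'
  refine SQ2.lst_equiv e A ?_
  refine hM H N C eps k P (e '' A) hNC ?_ ?_ ?_ ?_
  · rintro _ ⟨x, hx, rfl⟩
    exact ⟨x⁻¹, hA x hx, map_inv e x⟩
  · have h1 := congrArg (Subgroup.map e.toMonoidHom) hgen
    rw [MonoidHom.map_closure, ← MonoidHom.range_eq_map, MonoidHom.range_eq_top.2 e.surjective] at h1
    exact h1
  · obtain ⟨a, ha, haP⟩ := hPA
    exact ⟨e a, ⟨a, ha, rfl⟩, by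
      have h2 : orderOf (e a) = orderOf a := orderOf_injective e.toMonoidHom e.injective a
      rw [h2]; exact haP⟩
  · rw [← hcard]; exact hPb

/-- If the centre has order divisible by `P` and `P²` does not divide the order, every generating set contains an
element whose order is divisible by `P`. -/
theorem exists_dvd_of_central {G : Type*} [Group G] [Finite G] {P : ℕ} (hP : P.Prime) (h2 : ¬ P ^ 2 ∣ Nat.card G)
    {y : G} (hy : orderOf y = P) (hc : ∀ g : G, g * y = y * g) {A : Set G} (hgen : closure A = ⊤) :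
    ∃ a ∈ A, P ∣ orderOf a := by
  by_contra hno
  push Not at hno
  have hcen : zpowers y ≤ center G := by
    rw [zpowers_le, mem_center_iff]
    exact hc
  have hn : (zpowers y).Normal := ⟨fun x hx g => by
    have h3 := mem_center_iff.1 (hcen hx) g
    rw [h3, mul_inv_cancel_right]; exact hx⟩
  have hcard : Nat.card (zpowers y) = P := by rw [Nat.card_zpowers, hy]
  have hmul := (zpowers y).card_mul_index
  rw [hcard] at hmul
  have hcop : (Nat.card (zpowers y)).Coprime (zpowers y).index := by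
    rw [hcard]
    refine (Nat.Prime.coprime_iff_not_dvd hP).2 ?_
    rintro ⟨t, ht⟩
    apply h2
    rw [← hmul, ht, pow_two]
    exact ⟨t, by ring⟩
  obtain ⟨H, hH⟩ := exists_right_complement'_of_coprime hcop
  have hHc : Nat.card H = (zpowers y).index := hH.card_right
  have hAH : A ⊆ H := by
    intro a ha
    obtain ⟨⟨⟨z, hz⟩, ⟨h, hh⟩⟩, hzh⟩ := hH.2 a
    change z * h = a at hzh
    have hzc : Commute z h := (mem_center_iff.1 (hcen hz) h).symm
    have h3 : a ^ Nat.card H = 1 := by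
      have h4 : orderOf a ∣ Nat.card H := by
        have h5 : orderOf a ∣ P * Nat.card H := by
          rw [hHc, hmul]; exact orderOf_dvd_natCard a
        exact ((Nat.Prime.coprime_iff_not_dvd hP).2 (hno a ha)).symm.dvd_of_dvd_mul_left h5
      exact orderOf_dvd_iff_pow_eq_one.1 h4
    rw [← hzh, hzc.mul_pow] at h3
    have h5 : h ^ Nat.card H = 1 := by
      have := pow_card_eq_one' (x := (⟨h, hh⟩ : H))
      exact congrArg (fun t : H => (t : G)) this
    rw [h5, mul_one] at h3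
    have h6 : orderOf z ∣ Nat.card H := orderOf_dvd_of_pow_eq_one h3
    have h7 : orderOf z ∣ Nat.card (zpowers y) := by
      have := orderOf_dvd_natCard (⟨z, hz⟩ : zpowers y)
      rwa [Subgroup.orderOf_mk] at this
    have h8 : orderOf z ∣ 1 := by
      rw [← hcop]
      exact Nat.dvd_gcd h7 (hHc ▸ h6)
    have h9 : z = 1 := orderOf_eq_one_iff.1 (Nat.dvd_one.1 h8)
    rw [← hzh, h9, one_mul]
    exact hh
  have hHt : H = ⊤ := by
    rw [eq_top_iff, ← hgen, closure_le]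
    exact hAH
  have h10 : (zpowers y).index = 1 * P * (zpowers y).index := by
    rw [one_mul, hmul, ← hHc, hHt, Subgroup.card_top]
  have h11 : 0 < (zpowers y).index := Nat.pos_of_ne_zero (zpowers y).index_ne_zero_of_finite
  have h12 := hP.two_le
  rw [one_mul] at h10
  nlinarith

/-- The theorem for a central prime. -/
theorem listingC (hM : MainS) : ∃ c : ℕ, ∀ (G : Type u) [Group G] [Finite G] (P : ℕ), Good c (Nat.card G) P →
    (∃ y : G, orderOf y = P ∧ ∀ g, g * y = y * g) →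
    ∀ A : Set G, (∀ x ∈ A, x⁻¹ ∈ A) → closure A = ⊤ → Lst A := by
  obtain ⟨c, h⟩ := listingE.{u} hM
  refine ⟨c, ?_⟩
  intro G _ _ P hn ⟨y, hy, hact⟩ A hA hgen
  exact h G P hn ⟨y, hy, fun g => Or.inl (by rw [hact g, mul_inv_cancel_right])⟩ A hA hgen
    (exists_dvd_of_central hn.prime hn.sq hy hact hgen)

/-- The theorem for orders `n` such that no prime factor of `n` divides `P - 1`. -/
theorem listingO (hM : MainS) : ∃ c : ℕ, ∀ (G : Type u) [Group G] [Finite G] (P : ℕ), Good c (Nat.card G) P →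
    (∀ q ∈ (Nat.card G).primeFactors, ¬ q ∣ P - 1) →
    ∀ A : Set G, (∀ x ∈ A, x⁻¹ ∈ A) → closure A = ⊤ → Lst A := by
  obtain ⟨c, h⟩ := listingC.{u} hM
  refine ⟨c, ?_⟩
  intro G _ _ P hn hq A hA hgen
  have hn' := hn
  obtain ⟨k, m, hD, hP, hPb⟩ := hn'
  have hkm : Nat.card G = k * m := hD.eq
  have h1 := SQ2.H41.dvd_center hkm (hkm ▸ hD.toCutD) hP (hkm ▸ hq)
  have : Fact P.Prime := ⟨hn.prime⟩
  obtain ⟨⟨y, hyc⟩, hy⟩ := exists_prime_orderOf_dvd_card' (G := center G) P h1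
  rw [Subgroup.orderOf_mk] at hy
  exact h G P hn ⟨y, hy, mem_center_iff.1 hyc⟩ A hA hgen

/-- A normal subgroup of order `P`. -/
theorem exists_normal_P {G : Type*} [Group G] [Finite G] {k m P : ℕ} (hG : Nat.card G = k * m)
    (hD : SQ2.CutD (k * m) k m) (hP : P ∈ m.primeFactors) : ∃ y : G, orderOf y = P ∧ (zpowers y).Normal := by
  have hk0 : k ≠ 0 := by rintro rfl; rw [zero_mul] at hG; exact Nat.card_pos.ne' hG
  obtain ⟨N, hNn, hNc, hNcard⟩ := SQ2.H41.exists_normal_cyclic m k G hG hD.sq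
    (fun p hp q hq => by
      have h1 := hD.big p hp
      have h2 := Nat.le_of_dvd (Nat.pos_of_ne_zero hk0) (Nat.dvd_of_mem_primeFactors hq)
      omega) hD.act hD.syl
  have hPp := Nat.prime_of_mem_primeFactors hP
  have hPfact : Fact P.Prime := ⟨hPp⟩
  have hPN : P ∣ Nat.card N := by rw [hNcard]; exact Nat.dvd_of_mem_primeFactors hP
  obtain ⟨y, hy⟩ := exists_prime_orderOf_dvd_card' (G := N) P hPN
  have hyo : orderOf (y : G) = P := by rw [Subgroup.orderOf_coe, hy]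
  exact ⟨y, hyo, SQ2.H41.zpowers_normal N hNn hNc y.2⟩

/-- The action on the elements of order `P` is by `± 1`. -/
theorem act_of_bigP {c t P : ℕ} {G : Type*} [Group G] [Finite G] (hg : Good c (Nat.card G) P)
    (hb : BigP t (Nat.card G) P) : ∃ y : G, orderOf y = P ∧ ∀ g, g * y * g⁻¹ = y ∨ g * y * g⁻¹ = y⁻¹ := by
  have hp := hg.prime
  obtain ⟨k, m, hD, hP, hPb⟩ := hg
  have hkm : Nat.card G = k * m := hD.eq
  obtain ⟨y, hy, hyn⟩ := exists_normal_P hkm (hkm ▸ hD.toCutD) hP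
  refine ⟨y, hy, fun g => ?_⟩
  rcases SQ2.H41.act_pm hp (zpowers y) hyn (by rw [Nat.card_zpowers, hy]) hb.2.1 hb.2.2.1 g with h | h
  · exact Or.inl (h y (mem_zpowers y))
  · exact Or.inr (h y (mem_zpowers y))

open Classical in
/-- A property of almost all integers. -/
def AlmostAll (S : ℕ → Prop) : Prop :=
  ∀ ε : ℝ, 0 < ε → ∃ x₀ : ℕ, ∀ x ≥ x₀, (((Finset.Icc 1 x).filter (fun n => ¬ S n)).card : ℝ) ≤ ε * x

theorem AlmostAll.mono {S T : ℕ → Prop} (h : AlmostAll S) (hST : ∀ n, n ≠ 0 → S n → T n) : AlmostAll T := by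
  classical
  intro ε hε
  obtain ⟨x₀, h1⟩ := h ε hε
  refine ⟨x₀, fun x hx => le_trans ?_ (h1 x hx)⟩
  norm_cast
  refine Finset.card_le_card fun n hn => ?_
  rw [Finset.mem_filter] at hn ⊢
  refine ⟨hn.1, fun hS => hn.2 (hST n ?_ hS)⟩
  have := (Finset.mem_Icc.1 hn.1).1
  omega

theorem AlmostAll.and' {S T U : ℕ → Prop} (h : AlmostAll S) (h' : AlmostAll T) (hU : ∀ n, S n → T n → U n) :
    AlmostAll U := by
  classical
  intro ε hε
  obtain ⟨x₀, h1⟩ := h (ε / 2) (by positivity)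
  obtain ⟨x₁, h2⟩ := h' (ε / 2) (by positivity)
  refine ⟨max x₀ x₁, fun x hx => ?_⟩
  have key : ε * x = ε / 2 * x + ε / 2 * x := by ring
  rw [key]
  refine le_trans ?_ (add_le_add (h1 x ((le_max_left _ _).trans hx)) (h2 x ((le_max_right _ _).trans hx)))
  rw [← Nat.cast_add, Nat.cast_le]
  refine le_trans (Finset.card_le_card fun n hn => ?_) (Finset.card_union_le _ _)
  obtain ⟨hn1, hn2⟩ := Finset.mem_filter.1 hn
  rw [Finset.mem_union]
  by_cases hS : S n
  · exact Or.inr (Finset.mem_filter.2 ⟨hn1, fun hT => hn2 (hU n hS hT)⟩)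
  · exact Or.inl (Finset.mem_filter.2 ⟨hn1, hS⟩)

theorem AlmostAll.and {S T : ℕ → Prop} (h : AlmostAll S) (h' : AlmostAll T) : AlmostAll fun n => S n ∧ T n :=
  h.and' h' fun _ h1 h2 => ⟨h1, h2⟩

theorem almost_nice (hN : NiceMS) (c : ℕ) : AlmostAll (NiceM c) := fun ε hε => hN c ε hε

theorem almost_bigP (hB : BigPS) {t : ℕ} (ht : 2 ≤ t) : AlmostAll fun n => ∃ P, BigP t n P :=
  fun ε hε => hB t ε ht hε

/-- Large primes are good. -/
theorem almost_good (hN : NiceMS) (c : ℕ) {t : ℕ} (ht : 0 < t) :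
    AlmostAll fun n => ∀ P : ℕ, P.Prime → P ∣ n → Nat.log 2 n ≤ Nat.log 2 P ^ t → Good c n P :=
  (almost_nice hN (t * (c + 1))).mono fun _ hn h _ hP hPn hl => good_of hn ht h hP hPn hl

/-- Almost all orders. -/
theorem almostE (hM : MainS) (hN : NiceMS) (hB : BigPS) {t : ℕ} (ht : 2 ≤ t) : AlmostAll fun n =>
    (∀ P : ℕ, P.Prime → P ∣ n → Nat.log 2 n ≤ Nat.log 2 P ^ t →
      ∀ (G : Type u) [Group G] [Finite G], Nat.card G = n →
        (∃ y : G, orderOf y = P ∧ ∀ g, g * y * g⁻¹ = y ∨ g * y * g⁻¹ = y⁻¹) →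
        ∀ A : Set G, (∀ x ∈ A, x⁻¹ ∈ A) → closure A = ⊤ → (∃ a ∈ A, P ∣ orderOf a) → Lst A) ∧
    ∃ P : ℕ, P.Prime ∧ P ∣ n ∧ Nat.log 2 n ≤ Nat.log 2 P ^ t ∧
      ∀ (G : Type u) [Group G] [Finite G], Nat.card G = n →
        ∃ y : G, orderOf y = P ∧ ∀ g, g * y * g⁻¹ = y ∨ g * y * g⁻¹ = y⁻¹ := by
  obtain ⟨c, h⟩ := listingE.{u} hM
  refine ((almost_good hN c (t := t) (by omega)).and (almost_bigP hB ht)).mono ?_
  rintro n hn ⟨h1, P, hP⟩
  refine ⟨?_, P, Nat.prime_of_mem_primeFactors hP.1, Nat.dvd_of_mem_primeFactors hP.1, hP.2.2.2, ?_⟩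
  · intro P' hP' hPn hl G _ _ hG hy A hA hgen hPA
    subst hG
    exact h G P' (h1 P' hP' hPn hl) hy A hA hgen hPA
  · intro G _ _ hG
    subst hG
    exact act_of_bigP (h1 P (Nat.prime_of_mem_primeFactors hP.1) (Nat.dvd_of_mem_primeFactors hP.1) hP.2.2.2) hP

/-- Almost all odd orders. -/
theorem almostO (hM : MainS) (hN : NiceMS) (hB : BigPS) : AlmostAll fun n => Odd n →
    ∀ (G : Type u) [Group G] [Finite G], Nat.card G = n →
      ∀ A : Set G, (∀ x ∈ A, x⁻¹ ∈ A) → closure A = ⊤ → Lst A := by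
  obtain ⟨c, h⟩ := listingO.{u} hM
  refine ((almost_good hN c (t := 2) (by omega)).and (almost_bigP hB le_rfl)).mono ?_
  rintro n hn ⟨h1, P, hP⟩ hodd G _ _ hG A hA hgen
  subst hG
  refine h G P (h1 P (Nat.prime_of_mem_primeFactors hP.1) (Nat.dvd_of_mem_primeFactors hP.1) hP.2.2.2)
    (fun q hq hqP => ?_) A hA hgen
  have h2 := hP.2.1 q hq hqP
  subst h2
  have h3 := Nat.dvd_of_mem_primeFactors hq
  rw [← even_iff_two_dvd, ← Nat.not_odd_iff_even] at h3
  exact h3 hodd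

end Pool.Agent.Lib.MP_688fd0_co.SQ3
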