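import Pool.Agent.Lib.MP_688fd0_co.SQ3.Cls
import Pool.Agent.Lib.MP_688fd0_co.SQ2.H20.Select

/-!
SELECT for several conditions: `j i'` copies of the change `δ i' ·`, all conditions `i` at once.
-/

set_option autoImplicit false

namespace Pool.Agent.Lib.MP_688fd0_co.SQ3

open Pool.Agent.Lib.MP_688fd0_co.OSF Pool.Agent.Lib.MP_688fd0_co.SQ2

universe u v

/-- Arithmetic for several conditions: the primes may coincide, they are larger than the number of conditions. -/
theorem numsel2 {ι : Type} [Fintype ι] [DecidableEq ι] (p : ι → ℕ) (hp : ∀ i, (p i).Prime)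
    (hJ : ∀ i, Fintype.card ι < p i) (C : ∀ i, ZMod (p i)) (δ : ι → ∀ i, ZMod (p i)) (hδ : ∀ i, δ i i ≠ 0) :
    ∃ j : ι → ℕ, (∀ i, j i ≤ Fintype.card ι) ∧ ∀ i, C i + ∑ i', (j i' : ZMod (p i)) * δ i' i ≠ 0 := by
  classical
  have key : ∀ s : Finset ι, ∃ j : ι → ℕ, (∀ i, j i ≤ Fintype.card ι) ∧
      ∀ i, (∃ i' ∈ s, δ i' i ≠ 0) → C i + ∑ i' ∈ s, (j i' : ZMod (p i)) * δ i' i ≠ 0 := by
    intro s
    induction s using Finset.induction_on with
    | empty => exact ⟨fun _ => 0, fun _ => Nat.zero_le _, fun i h => by obtain ⟨i', h, -⟩ := h; simp at h⟩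
    | insert f s hf ih =>
      obtain ⟨j, hj1, hj2⟩ := ih
      -- the forbidden values
      obtain ⟨bad, hbad⟩ : ∃ bad : ι → Finset ℕ, bad = fun i => (Finset.range (Fintype.card ι + 1)).filter
          fun t : ℕ => δ f i ≠ 0 ∧ C i + ∑ i' ∈ s, (j i' : ZMod (p i)) * δ i' i + (t : ZMod (p i)) * δ f i = 0 := ⟨_, rfl⟩
      have hb1 : ∀ i, (bad i).card ≤ 1 := by
        intro i
        rw [Finset.card_le_one]
        intro t ht t' ht'
        rw [hbad, Finset.mem_filter, Finset.mem_range] at ht ht'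
        obtain ⟨h1, h2, h3⟩ := ht
        obtain ⟨h1', -, h3'⟩ := ht'
        have := Fact.mk (hp i)
        have h4 : ((t : ZMod (p i)) - t') * δ f i = 0 := by
          rw [sub_mul, sub_eq_zero]
          exact add_left_cancel (h3.trans h3'.symm)
        have h5 : (t : ZMod (p i)) = t' := sub_eq_zero.1 ((mul_eq_zero.1 h4).resolve_right h2)
        have h6 := (ZMod.natCast_eq_natCast_iff' _ _ _).1 h5
        have h7 := hJ i
        rw [Nat.mod_eq_of_lt (by omega), Nat.mod_eq_of_lt (by omega)] at h6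
        exact h6
      have hb2 : ((Finset.univ : Finset ι).biUnion bad).card < (Finset.range (Fintype.card ι + 1)).card := by
        refine lt_of_le_of_lt Finset.card_biUnion_le ?_
        refine lt_of_le_of_lt (Finset.sum_le_card_nsmul _ _ 1 fun i _ => hb1 i) ?_
        rw [Finset.card_range, smul_eq_mul, mul_one, Finset.card_univ]
        omega
      obtain ⟨t, ht1, ht2⟩ := Finset.exists_mem_notMem_of_card_lt_card hb2
      have ht1' := Finset.mem_range.1 ht1
      refine ⟨Function.update j f t, fun i => ?_, fun i hi => ?_⟩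
      · by_cases hif : i = f
        · subst hif; rw [Function.update_self]; omega
        · rw [Function.update_of_ne hif]; exact hj1 i
      · rw [Finset.sum_insert hf, Function.update_self]
        have h1 : ∑ i' ∈ s, ((Function.update j f t i' : ℕ) : ZMod (p i)) * δ i' i =
            ∑ i' ∈ s, (j i' : ZMod (p i)) * δ i' i := by
          refine Finset.sum_congr rfl fun i' hi' => ?_
          rw [Function.update_of_ne (fun h => hf (by rw [← h]; exact hi'))]
        rw [h1]
        by_cases h2 : δ f i = 0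
        · rw [h2, mul_zero, zero_add]
          refine hj2 i ?_
          obtain ⟨i', h3, h4⟩ := hi
          rcases Finset.mem_insert.1 h3 with h5 | h5
          · rw [h5] at h4; exact absurd h2 h4
          · exact ⟨i', h5, h4⟩
        · intro h3
          refine ht2 (Finset.mem_biUnion.2 ⟨i, Finset.mem_univ _, ?_⟩)
          rw [hbad, Finset.mem_filter]
          exact ⟨ht1, h2, by rw [← h3]; ring⟩
  obtain ⟨j, h1, h2⟩ := key Finset.univ
  exact ⟨j, h1, fun i => h2 i ⟨i, Finset.mem_univ _, hδ i⟩⟩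

/-- SELECT for one or two tours. The conditions are the pairs (prime factor, class that occurs). -/
theorem select2 {Q : Type u} [Group Q] [Fintype Q] {B : Lb.{u, v} Q} {m : ℕ} (hm : m ≠ 0) (V : Vd B (ZMod m))
    (cl : Q → Bool) {κ : Type} [Fintype κ]
    (hbig : ∀ p ∈ m.primeFactors, 2 * m.primeFactors.card < p)
    (sl : {c : m.primeFactors × Bool // ∃ x, cl x = c.2} → Fin (2 * m.primeFactors.card) → κ)
    (hinj : ∀ q i q' i', sl q i = sl q' i' → q = q' ∧ i = i')
    (T : TourS B Bool) (D : κ → ∀ p : ℕ, p ∈ m.primeFactors → Bool → ZMod p)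
    (δ : {c : m.primeFactors × Bool // ∃ x, cl x = c.2} → ∀ p : ℕ, p ∈ m.primeFactors → Bool → ZMod p)
    (hD : ∀ q i p hp γ, D (sl q i) p hp γ = δ q p hp γ)
    (hδ : ∀ c : {c : m.primeFactors × Bool // ∃ x, cl x = c.2}, δ c c.1.1 c.1.1.2 c.1.2 ≠ 0)
    (hT : ∀ c : κ → Bool, ∃ T' : TourS B Bool, (∀ x, ∃ y, T'.cls x = cl y) ∧ ∀ p (hp : p ∈ m.primeFactors) (γ : Bool),
      T'.vol (V.map (red (Nat.dvd_of_mem_primeFactors hp))) γ =
        T.vol (V.map (red (Nat.dvd_of_mem_primeFactors hp))) γ + ∑ k, if c k then D k p hp γ else 0) :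
    ∃ T' : TourS B Bool, ∀ γ : Bool, (∃ x, T'.cls x = γ) → IsUnit (T'.vol V γ) := by
  classical
  obtain ⟨I, hI⟩ : ∃ I : Type, I = {c : m.primeFactors × Bool // ∃ x, cl x = c.2} := ⟨_, rfl⟩
  have hcard : Fintype.card {c : m.primeFactors × Bool // ∃ x, cl x = c.2} ≤ 2 * m.primeFactors.card := by
    refine (Fintype.card_subtype_le _).trans ?_
    rw [Fintype.card_prod, Fintype.card_coe, Fintype.card_bool, mul_comm]
  obtain ⟨j, hj1, hj2⟩ := numsel2 (ι := {c : m.primeFactors × Bool // ∃ x, cl x = c.2}) (fun c => (c.1.1 : ℕ))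
    (fun c => Nat.prime_of_mem_primeFactors c.1.1.2)
    (fun c => lt_of_le_of_lt hcard (hbig _ c.1.1.2))
    (fun c => T.vol (V.map (red (Nat.dvd_of_mem_primeFactors c.1.1.2))) c.1.2)
    (fun c' c => δ c' c.1.1 c.1.1.2 c.1.2) hδ
  obtain ⟨T', hT1, hT'⟩ := hT fun k => decide (∃ q i, sl q i = k ∧ (i : ℕ) < j q)
  refine ⟨T', fun γ hγ => H16.isUnit_of_red hm _ fun p hp => ?_⟩
  replace hγ : ∃ x, cl x = γ := by
    obtain ⟨x, hx⟩ := hγ
    obtain ⟨y, hy⟩ := hT1 x
    exact ⟨y, hy.symm.trans hx⟩
  have h0 : red (Nat.dvd_of_mem_primeFactors hp) (T'.vol V γ) =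
      T'.vol (V.map (red (Nat.dvd_of_mem_primeFactors hp))) γ := by
    unfold TourS.vol
    rw [map_sum]
    refine Finset.sum_congr rfl fun x _ => ?_
    by_cases hx : T'.cls x = γ
    · rw [if_pos hx, if_pos hx, map_mul]; rfl
    · rw [if_neg hx, if_neg hx, map_zero]
  rw [h0, hT' p hp γ]
  have h2 := hj2 ⟨(⟨p, hp⟩, γ), hγ⟩
  have e1 : (∑ k, if (decide (∃ q i, sl q i = k ∧ (i : ℕ) < j q) : Bool) then D k p hp γ else 0) =
      ∑ q : {c : m.primeFactors × Bool // ∃ x, cl x = c.2}, (j q : ZMod p) * δ q p hp γ := by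
    have e3 : ∀ q : {c : m.primeFactors × Bool // ∃ x, cl x = c.2}, (j q : ZMod p) * δ q p hp γ =
        ∑ i : Fin (2 * m.primeFactors.card), if (i : ℕ) < j q then δ q p hp γ else 0 := by
      intro q
      rw [← Finset.sum_filter, Finset.sum_const, nsmul_eq_mul]
      congr 2
      have h3 : j q ≤ 2 * m.primeFactors.card := (hj1 q).trans hcard
      have h4 : (Finset.univ.filter fun i : Fin (2 * m.primeFactors.card) => (i : ℕ) < j q).card = j q := by
        rw [← Finset.card_image_of_injective _ Fin.val_injective]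
        have h5 : (Finset.univ.filter fun i : Fin (2 * m.primeFactors.card) => (i : ℕ) < j q).image Fin.val =
            Finset.range (j q) := by
          ext x
          rw [Finset.mem_image, Finset.mem_range]
          constructor
          · rintro ⟨i, hi, rfl⟩
            exact (Finset.mem_filter.1 hi).2
          · intro hx
            exact ⟨⟨x, lt_of_lt_of_le hx h3⟩, Finset.mem_filter.2 ⟨Finset.mem_univ _, hx⟩, rfl⟩
        rw [h5, Finset.card_range]
      rw [h4]
    rw [Finset.sum_congr rfl fun q _ => e3 q]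
    have e4 : ∀ k, (if (decide (∃ q i, sl q i = k ∧ (i : ℕ) < j q) : Bool) then D k p hp γ else 0) =
        ∑ q : {c : m.primeFactors × Bool // ∃ x, cl x = c.2}, ∑ i : Fin (2 * m.primeFactors.card),
          if sl q i = k then (if (i : ℕ) < j q then δ q p hp γ else 0) else 0 := by
      intro k
      by_cases hk : ∃ q i, sl q i = k
      · obtain ⟨q, i, rfl⟩ := hk
        rw [Finset.sum_eq_single q, Finset.sum_eq_single i, if_pos rfl, hD]
        · by_cases hi : (i : ℕ) < j q
          · rw [if_pos hi, if_pos (decide_eq_true ⟨q, i, rfl, hi⟩)]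
          · rw [if_neg hi, if_neg]
            intro h
            obtain ⟨q', i', h3, h4⟩ := of_decide_eq_true h
            obtain ⟨rfl, rfl⟩ := hinj _ _ _ _ h3
            exact hi h4
        · intro i' _ hne
          rw [if_neg (fun h => hne (hinj _ _ _ _ h).2)]
        · intro h; exact absurd (Finset.mem_univ _) h
        · intro q' _ hne
          refine Finset.sum_eq_zero fun i' _ => ?_
          rw [if_neg (fun h => hne (hinj _ _ _ _ h).1)]
        · intro h; exact absurd (Finset.mem_univ _) h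
      · rw [if_neg]
        · symm
          refine Finset.sum_eq_zero fun q _ => Finset.sum_eq_zero fun i _ => ?_
          rw [if_neg (fun h => hk ⟨q, i, h⟩)]
        · intro h
          obtain ⟨q, i, h3, -⟩ := of_decide_eq_true h
          exact hk ⟨q, i, h3⟩
    rw [Finset.sum_congr rfl fun k _ => e4 k, Finset.sum_comm]
    refine Finset.sum_congr rfl fun q _ => ?_
    rw [Finset.sum_comm]
    refine Finset.sum_congr rfl fun i _ => ?_
    rw [Finset.sum_ite_eq]
    rw [if_pos (Finset.mem_univ _)]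
  rw [e1]
  exact h2

end Pool.Agent.Lib.MP_688fd0_co.SQ3
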