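import Pool.Agent.Lib.MP_688fd0_co.SQ3.H23.HeartA
import Pool.Agent.Lib.MP_688fd0_co.SQ3.H23.Select2
import Pool.Agent.Lib.MP_688fd0_co.SQ2.H80.PlaceP

/-!
HEART (stage E): one or two tours of the quotient with unit volumes.
-/

set_option autoImplicit false

namespace Pool.Agent.Lib.MP_688fd0_co.SQ3

open Pool.Agent.Lib.MP_688fd0_co.OSF Pool.Agent.Lib.MP_688fd0_co.SQ2
open Finset

theorem heart (hFl : FlipS) (hCt : CtxS) (hNr : NearS) (hBl : BlocksS) : HeartS := by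
  classical
  intro Q _ _ B a eps D z k H htop c W hSi hSe hLe m V hm hz hbig hkap hW hP
  have hfinL := H.finL
  have hk : 0 < k := H.kpos
  have hm0 : m ≠ 0 := by
    rintro rfl
    exact absurd hm (by decide)
  obtain ⟨r, hr⟩ : ∃ r, r = 2 * m.primeFactors.card := ⟨_, rfl⟩
  obtain ⟨ρ, hρ⟩ : ∃ ρ, ρ = Nat.card B.L := ⟨_, rfl⟩
  obtain ⟨Λ, hΛ⟩ : ∃ Λ, Λ = lam ((ρ + 2) ^ 4 * k) k c := ⟨_, rfl⟩
  rw [← hr, ← hρ] at hW
  have hW' : needW ρ r k c = 100 * (r + 2) ^ 2 * 2 ^ r * (Λ + 4 * k) := by rw [hΛ]; rfl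
  -- total height
  have hΛ1 : 4 * (c + k) + 40000 ≤ Λ := by
    rw [hΛ]
    unfold lam hgt
    set f := ((ρ + 2) ^ 4 * k).factorial
    set g := (ρ + 2) ^ 4 * k * k * ((ρ + 2) ^ 4 * k) ^ ((ρ + 2) ^ 4 * k)
    have h1 : 10000 * (4 * f + 4 * (c + k) + 8 + 4 * k + 4) ≤ 1000 * (g + 10) * (4 * f + 4 * (c + k) + 8 + 4 * k + 4) :=
      Nat.mul_le_mul_right _ (by omega)
    omega
  have htot : r * r * Λ + Λ + 1 ≤ W := by
    refine le_trans ?_ hW
    rw [hW']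
    have h1 : 1 ≤ 2 ^ r := Nat.one_le_two_pow
    have h2 : r * r * Λ + Λ + 1 ≤ (r + 2) ^ 2 * (Λ + 4 * k) := by
      have e : (r + 2) ^ 2 * (Λ + 4 * k) = r * r * Λ + (4 * r + 4) * Λ + (r + 2) ^ 2 * (4 * k) := by ring
      rw [e]
      have h3 : 1 * Λ ≤ (4 * r + 4) * Λ := Nat.mul_le_mul_right _ (by omega)
      have h4 : 1 ≤ (r + 2) ^ 2 * (4 * k) := Nat.mul_pos (by positivity) (by omega)
      omega
    refine h2.trans ?_
    refine Nat.mul_le_mul_right _ ?_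
    calc (r + 2) ^ 2 = 1 * (r + 2) ^ 2 * 1 := by ring
      _ ≤ 100 * (r + 2) ^ 2 * 2 ^ r := Nat.mul_le_mul (Nat.mul_le_mul_right _ (by norm_num)) h1
  have hΛW : Λ ≤ W := by omega
  obtain ⟨d, cl, N, x, b₁, b₂, j, F, rk, C, hN, TL⟩ := hCt Q B a eps D z k H htop c W hSi hSe hLe (by omega)
  have hFc : ∀ i, (F i).card ≤ (ρ + 2) ^ 4 * k := fun i => by rw [hρ]; exact C.fcard i
  have hlam : ∀ i, lam (F i).card k c ≤ Λ := fun i => by rw [hΛ]; exact lam_mono (hFc i)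
  obtain ⟨t₀, ht₀, hE, hV⟩ := hFl Q B a eps D z k H c W d cl (Fin N) x b₁ b₂ j F C fun i => (hlam i).trans hΛW
  obtain ⟨U, hU⟩ : ∃ U, U = H.up := ⟨_, rfl⟩
  -- the leaves
  have hlv : ∀ i, ∃ s : Q × Q, Leaves H.up (F i) (x i) (b₁ i) (b₂ i) (j i) c s.1 s.2 := by
    intro i
    obtain ⟨s₁, s₂, h⟩ := leavesU H (C.fr i) (x := x i) (b₁ := b₁ i) (b₂ := b₂ i) (j := j i) (c := c)
      (C.fsh i [b₁ i] (by simp)) (C.fsh i [b₂ i] (by simp))
    exact ⟨(s₁, s₂), h⟩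
  choose s hs using hlv
  choose E nE hnE hE using fun i => hE i _ _ (hs i)
  -- the primes
  have hV' : ∀ q : {c : m.primeFactors × Bool // ∃ x, cl x = c.2}, ∃ (i : Fin N) (X X' : TW B) (n : ℕ),
      n ≤ lam (F i).card k c ∧
      FWin H.up k (F i) (t₀ i) (x i) (s i).1 (s i).2 X n ∧ Ver H.up X X' n ((H.up.U ^ t₀ i) (s i).2) ∧
      dvolw (V.map (red (Nat.dvd_of_mem_primeFactors q.1.1.2))) (wcl cl d q.1.2) X X' ≠ 0 := by
    intro q
    have hq := Nat.prime_of_mem_primeFactors q.1.1.2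
    obtain ⟨i, hi⟩ := hV q.1.1 ⟨hq⟩ (V.map (red (Nat.dvd_of_mem_primeFactors q.1.1.2))) (hbig q.1.1 q.1.1.2).1 (by
      show red (Nat.dvd_of_mem_primeFactors q.1.1.2) (V.chi z) = 1
      rw [hz, map_one]) (hkap q.1.1 q.1.1.2) q.1.2 q.2
    obtain ⟨X, X', n, h⟩ := hi _ _ (hs i)
    exact ⟨i, X, X', n, h⟩
  choose iq Xq Xq' nq hnq hFq hVq hdq using hV'
  -- the slots
  let κ := ({c : m.primeFactors × Bool // ∃ x, cl x = c.2} × Fin (2 * m.primeFactors.card)) ⊕ Fin N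
  let π : κ → Fin N := Sum.elim (fun p => iq p.1) id
  let X₀ : κ → TW B := Sum.elim (fun p => Xq p.1) E
  let X₀' : κ → TW B := Sum.elim (fun p => Xq' p.1) E
  let h : κ → ℕ := Sum.elim (fun p => nq p.1) nE
  have hF₀ : ∀ l : κ, FWin H.up k (F (π l)) (t₀ (π l)) (x (π l)) (s (π l)).1 (s (π l)).2 (X₀ l) (h l) := by
    rintro (p | i)
    · exact hFq p.1
    · exact hE i
  have hV₀ : ∀ l : κ, Ver H.up (X₀ l) (X₀' l) (h l) ((H.up.U ^ t₀ (π l)) (s (π l)).2) := by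
    rintro (p | i)
    · exact hVq p.1
    · exact Ver.refl (hE i).flat
  have hh : ∀ l, h l ≤ Λ := by
    rintro (p | i)
    · exact (hnq p.1).trans (hlam _)
    · exact (hnE i).trans (hlam _)
  obtain ⟨n, hn⟩ : ∃ n : Fin N → ℕ, n = fun i => ∑ l with π l = i, h l := ⟨_, rfl⟩
  have hcard : Fintype.card {c : m.primeFactors × Bool // ∃ x, cl x = c.2} ≤ r := by
    refine (Fintype.card_subtype_le _).trans ?_
    rw [Fintype.card_prod, Fintype.card_coe, Fintype.card_bool, mul_comm, hr]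
  have hn1 : ∀ i, n i + 1 ≤ W := by
    intro i
    refine le_trans ?_ htot
    have h1 : n i ≤ ∑ p : {c : m.primeFactors × Bool // ∃ x, cl x = c.2} × Fin (2 * m.primeFactors.card), nq p.1 +
        nE i := by
      rw [hn]
      show ∑ l with π l = i, h l ≤ _
      rw [Finset.sum_filter, Fintype.sum_sum_type]
      refine Nat.add_le_add ?_ ?_
      · refine Finset.sum_le_sum fun p _ => ?_
        by_cases hp : π (Sum.inl p) = i
        · rw [if_pos hp]; exact le_rfl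
        · rw [if_neg hp]; exact Nat.zero_le _
      · have h2 : ∀ i' : Fin N, (if π (Sum.inr i') = i then h (Sum.inr i') else 0) = if i' = i then nE i' else 0 :=
          fun _ => rfl
        rw [Finset.sum_congr rfl fun i' _ => h2 i', Finset.sum_ite_eq' Finset.univ i, if_pos (Finset.mem_univ _)]
    have h2 : ∑ p : {c : m.primeFactors × Bool // ∃ x, cl x = c.2} × Fin (2 * m.primeFactors.card), nq p.1 ≤
        r * r * Λ := by
      refine (Finset.sum_le_card_nsmul Finset.univ _ Λ fun p _ => (hnq p.1).trans (hlam _)).trans ?_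
      rw [Finset.card_univ, Fintype.card_prod, Fintype.card_fin, smul_eq_mul, ← hr]
      exact Nat.mul_le_mul_right _ (Nat.mul_le_mul_right _ hcard)
    have h3 : nE i ≤ Λ := (hnE i).trans (hlam i)
    omega
  -- the places
  obtain ⟨u, hu⟩ : ∃ u, u = z ^ k := ⟨_, rfl⟩
  have huz : ∀ (l : ℤ) (y : Q), u ^ l * y = (H.up.U ^ ((k : ℤ) * l)) y := fun l y => by rw [hu, H.U_kz]
  have hup : ∀ l : ℤ, eps (u ^ l) = 1 := fun l => by
    rw [hu, ← zpow_natCast, ← zpow_mul, H.eps_zpow]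
  let Gr : Fin N → Finset Q := fun i => (range (n i + 1)).biUnion fun t => im (H.up.U ^ (t₀ i + t)) (F i)
  have hGr : ∀ i y, y ∈ Gr i ↔ ∃ t, t ≤ n i ∧ ∃ f ∈ F i, y = (H.up.U ^ (t₀ i + t)) f := by
    intro i y
    show y ∈ (range (n i + 1)).biUnion _ ↔ _
    rw [Finset.mem_biUnion]
    constructor
    · rintro ⟨t, ht, hy⟩
      rw [mem_im] at hy
      exact ⟨t, by have := Finset.mem_range.1 ht; omega, _, hy, by simp⟩
    · rintro ⟨t, ht, f, hf, rfl⟩
      exact ⟨t, Finset.mem_range.2 (by omega), map_mem_im.2 hf⟩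
  have hGrc : ∀ i, (Gr i).card ≤ (ρ + 2) ^ 4 * k * W := by
    intro i
    refine Finset.card_biUnion_le.trans ?_
    refine (Finset.sum_le_card_nsmul _ _ ((ρ + 2) ^ 4 * k) ?_).trans ?_
    · intro t _
      unfold im
      rw [Finset.card_map]
      exact hFc i
    · rw [Finset.card_range, smul_eq_mul, mul_comm]
      exact Nat.mul_le_mul_left _ (hn1 i)
  obtain ⟨w, hw, hwd⟩ := place Q u (Fin N) Gr ((ρ + 2) ^ 4 * k * W) ((ρ + 2) ^ 10 * k) hGrc (by
      intro i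
      obtain ⟨S, hS1, hS2⟩ := hNr Q B a eps D z k H c W d cl N x b₁ b₂ j F rk C TL i
      refine ⟨S, by rw [hρ]; exact hS1, fun i' hi' y hy y' hy' l l' => ?_⟩
      rw [huz, huz]
      obtain ⟨t, -, f, hf, rfl⟩ := (hGr i y).1 hy
      obtain ⟨t', -, f', hf', rfl⟩ := (hGr i' y').1 hy'
      have h1 := hS2 i' hi' f hf f' hf' ((k : ℤ) * l + (t₀ i + t : ℕ)) ((k : ℤ) * l' + (t₀ i' + t' : ℕ))
      rw [zpow_add, zpow_add, zpow_natCast, zpow_natCast] at h1
      exact h1) (by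
      rw [hu, ← H.hpow_k]
      refine lt_of_le_of_lt ?_ hP
      rw [← hρ]
      have e1 : (ρ + 2) ^ 10 * k * ((ρ + 2) ^ 4 * k * W) ^ 2 = (ρ + 2) ^ 18 * k ^ 3 * W ^ 2 := by ring
      rw [e1]
      refine Nat.mul_le_mul_right _ (Nat.mul_le_mul ?_ ?_)
      · exact Nat.pow_le_pow_right (by omega) (by omega)
      · exact Nat.pow_le_pow_right hk (by omega))
  have hwl : ∀ i, ∃ l : ℤ, ∀ y, w i * y = (H.up.U ^ l) y := by
    intro i
    obtain ⟨l, hl⟩ := Subgroup.mem_zpowers_iff.1 (hw i)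
    exact ⟨(k : ℤ) * l, fun y => by rw [← hl]; exact huz l y⟩
  have hwe : ∀ i, eps (w i) = 1 := by
    intro i
    obtain ⟨l, hl⟩ := Subgroup.mem_zpowers_iff.1 (hw i)
    rw [← hl]; exact hup l
  have hwU : ∀ i y, H.up.U (w i * y) = w i * H.up.U y := fun i y => H.U_tr (hwe i) y
  have inv_gen : ∀ (φ : Q → Bool), (∀ y, φ (H.up.U y) = φ y) → ∀ (l : ℤ) (y : Q), φ ((H.up.U ^ l) y) = φ y := by
    intro φ hφ
    have h1 : ∀ (l : ℕ) (y : Q), φ ((H.up.U ^ l) y) = φ y := by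
      intro l y
      induction l with
      | zero => rfl
      | succ l ih => rw [H.up.U_pow_succ', hφ, ih]
    intro l y
    obtain ⟨l, rfl | rfl⟩ := l.eq_nat_or_neg
    · rw [zpow_natCast]; exact h1 l y
    · rw [← h1 l ((H.up.U ^ (-(l : ℤ))) y), zpow_neg, zpow_natCast]; simp
  have hd : ∀ (l : ℤ) (y : Q), d ((H.up.U ^ l) y) = d y := inv_gen d C.d_line
  have hc : ∀ (l : ℤ) (y : Q), cl ((H.up.U ^ l) y) = cl y := inv_gen cl C.c_line
  have hdw : ∀ i y, d (w i * y) = d y := by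
    intro i y
    obtain ⟨l, hl⟩ := hwl i
    rw [hl, hd]
  have hcw : ∀ i y, cl (w i * y) = cl y := by
    intro i y
    obtain ⟨l, hl⟩ := hwl i
    rw [hl, hc]
  let ln : Q → Q ⧸ Subgroup.zpowers (B.q a) := fun y => (y : Q ⧸ Subgroup.zpowers (B.q a))
  have hlz : ∀ (l : ℤ) (y : Q), ln ((H.up.U ^ l) y) = ln y := fun l y => H.ln_U l y
  have hlw : ∀ i y, ln (w i * y) = ln y := by
    intro i y
    obtain ⟨l, hl⟩ := hwl i
    rw [hl, hlz]
  -- the points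
  let pu₁ : Fin N → Q := fun i => w i * (H.up.U ^ t₀ i) (x i)
  let pu₀ : Fin N → Q := fun i => w i * (H.up.U ^ t₀ i) (s i).1
  let pxs : Fin N → Q := fun i => w i * (H.up.U ^ t₀ i) (s i).2
  let L₀ : Fin N → Finset Q := fun i => lt (w i) (im (H.up.U ^ t₀ i) (F i))
  have nat_of : ∀ {β : Type} (φ : Q → β), (∀ (l : ℤ) (y : Q), φ ((H.up.U ^ l) y) = φ y) →
      ∀ (l : ℕ) (y : Q), φ ((H.up.U ^ l) y) = φ y := fun φ hφ l y => by
    have := hφ l y
    rwa [zpow_natCast] at this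
  have hdn := nat_of d hd
  have hcn := nat_of cl hc
  have hln := nat_of ln hlz
  have g1 : ∀ {β : Type} (φ : Q → β), (∀ i y, φ (w i * y) = φ y) → (∀ (l : ℤ) (y : Q), φ ((H.up.U ^ l) y) = φ y) →
      ∀ i, φ (pu₁ i) = φ (x i) ∧ φ (pu₀ i) = φ (x i * B.q (b₁ i)) ∧
        φ (pxs i) = φ ((H.up.U ^ j i) (x i) * B.q (b₂ i)) := by
    intro β φ hφw hφ i
    have hφn := nat_of φ hφ
    refine ⟨?_, ?_, ?_⟩
    · show φ (w i * (H.up.U ^ t₀ i) (x i)) = _
      rw [hφw, hφn]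
    · show φ (w i * (H.up.U ^ t₀ i) (s i).1) = _
      obtain ⟨o, -, ho⟩ := (hs i).e₁
      rw [hφw, hφn, ho, hφ]
    · show φ (w i * (H.up.U ^ t₀ i) (s i).2) = _
      obtain ⟨o, -, ho⟩ := (hs i).e₂
      rw [hφw, hφn, ho, hφ]
  have hTL : TreeK ln cl pu₁ pu₀ pxs rk := TL.congr (fun i => (g1 ln hlw hlz i).1) (fun i => (g1 ln hlw hlz i).2.1)
    (fun i => (g1 ln hlw hlz i).2.2) (fun i => (g1 cl hcw hc i).1) (fun i => (g1 cl hcw hc i).2.1)
    (fun i => (g1 cl hcw hc i).2.2)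
  have hdir : ∀ i, d (pu₀ i) = !d (pu₁ i) ∧ d (pxs i) = !d (pu₁ i) := by
    intro i
    obtain ⟨e1, e2, e3⟩ := g1 d hdw hd i
    rw [e1, e2, e3]
    exact ⟨C.d₁ i, C.d₂ i⟩
  have hPos : PosU H.up.U L₀ n pu₁ pu₀ pxs := by
    refine ⟨fun i => ?_, fun i => ?_, fun i => ?_, fun i => ?_, ?_⟩
    · have h1 : h (Sum.inr i) ≤ n i := by
        rw [hn]
        exact Finset.single_le_sum (f := h) (fun _ _ => Nat.zero_le _)
          (Finset.mem_filter.2 ⟨Finset.mem_univ (Sum.inr i), rfl⟩)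
      have h2 : 0 < nE i := (hE i).flat.pos
      exact lt_of_lt_of_le h2 h1
    · exact mul_mem_lt.2 (map_mem_im.2 (C.fx i))
    · exact mul_mem_lt.2 (map_mem_im.2 (hs i).h₁)
    · exact mul_mem_lt.2 (map_mem_im.2 (hs i).h₂)
    · intro i i' y y' t t' hy hy' ht ht' he
      have hy := mem_lt.1 hy
      have hy' := mem_lt.1 hy'
      rw [mem_im] at hy hy'
      obtain ⟨f, hf⟩ : ∃ f, f = (H.up.U ^ t₀ i)⁻¹ ((w i)⁻¹ * y) := ⟨_, rfl⟩
      obtain ⟨f', hf'⟩ : ∃ f', f' = (H.up.U ^ t₀ i')⁻¹ ((w i')⁻¹ * y') := ⟨_, rfl⟩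
      rw [← hf] at hy
      rw [← hf'] at hy'
      have e1 : y = w i * (H.up.U ^ t₀ i) f := by rw [hf]; simp
      have e2 : y' = w i' * (H.up.U ^ t₀ i') f' := by rw [hf']; simp
      have e3 : (H.up.U ^ t) y = w i * (H.up.U ^ (t₀ i + t)) f := by
        rw [e1, pow_tr (hwU i), H.up.U_pow_add]
      have e4 : (H.up.U ^ t') y' = w i' * (H.up.U ^ (t₀ i' + t')) f' := by
        rw [e2, pow_tr (hwU i'), H.up.U_pow_add]
      by_cases hii : i = i'
      · subst hii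
        rw [e3, e4] at he
        have he := mul_left_cancel he
        have h3 : f' = (H.up.U ^ ((t : ℤ) - t')) f := by
          have h4 : (H.up.U ^ ((t : ℤ) - t')) f = (H.up.U ^ (t₀ i + t'))⁻¹ ((H.up.U ^ (t₀ i + t)) f) := by
            rw [← Equiv.Perm.mul_apply, ← zpow_natCast, ← zpow_natCast, ← zpow_neg, ← zpow_add]
            congr 2
            push_cast
            ring
          rw [h4, he]
          simp
        have h5 := (C.fr i).disj f hy ((t : ℤ) - t') (by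
          have := hn1 i
          rw [abs_le]; constructor <;> omega) (by rw [← h3]; exact hy')
        have h6 : t = t' := by omega
        subst h6
        have h8 : f = f' := (H.up.U ^ (t₀ i + t)).injective he
        refine ⟨rfl, ?_, rfl⟩
        rw [e1, e2, h8]
      · exfalso
        refine hwd i i' hii _ ((hGr i _).2 ⟨t, ht, f, hy, rfl⟩) _ ((hGr i' _).2 ⟨t', ht', f', hy', rfl⟩) ?_
        rw [← e3, ← e4]; exact he
  have hwt : ∀ (γ : Bool) (R : Type) [CommRing R] (i : Fin N) (y : Q),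
      (wcl cl d γ (w i * y) : R) = wcl cl d γ y := by
    intro γ R _ i y
    unfold wcl
    rw [hcw, hdw]
  obtain ⟨T, hT0, hT⟩ := hBl Q B H.up (Q ⧸ Subgroup.zpowers (B.q a)) ln d cl (Fin N) rk
    (fun y => by
      have := hln 1 y
      rwa [pow_one] at this) (fun y y' hyy => H.ln_eq hyy) QuotientGroup.mk_surjective C.d_line C.c_line
    κ π (fun i => ⟨Sum.inr i, rfl⟩) h (fun l => z ^ h l)
    (fun l => (X₀ l).tr (w (π l))) (fun l => (X₀' l).tr (w (π l))) L₀ pu₀ pu₁ pxs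
    (fun l => (hV₀ l).ltr (hwU (π l)))
    (fun l => ⟨congrArg (lt (w (π l))) (hF₀ l).L₀, congrArg (w (π l) * ·) (hF₀ l).u₀,
      congrArg (w (π l) * ·) (hF₀ l).u₁⟩)
    (fun l y => H.U_dvd (hF₀ l).dvd y)
    (fun l y => H.dat.upc _ (show z ^ h l ∈ eps.ker from by
      rw [MonoidHom.mem_ker, ← zpow_natCast]; exact H.eps_zpow _) y)
    hdir (by rw [hn] at hPos; exact hPos) hTL
  refine select2 hm0 V cl (fun p hp => (hbig p hp).2) (fun q i => (Sum.inl (q, i) : κ)) (fun q i q' i' hq => by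
      have h1 := Sum.inl.inj hq
      exact ⟨congrArg Prod.fst h1, congrArg Prod.snd h1⟩) T
    (fun l p hp γ => dvolw (V.map (red (Nat.dvd_of_mem_primeFactors hp))) (wcl cl d γ)
      ((X₀ l).tr (w (π l))) ((X₀' l).tr (w (π l))))
    (fun q p hp γ => dvolw (V.map (red (Nat.dvd_of_mem_primeFactors hp))) (wcl cl d γ) ((Xq q).tr (w (iq q)))
      ((Xq' q).tr (w (iq q)))) (fun q i p hp γ => rfl) ?_ ?_
  · intro q
    have hp := q.1.1.2
    show dvolw (V.map (red (Nat.dvd_of_mem_primeFactors q.1.1.2))) (wcl cl d q.1.2) ((Xq q).tr (w (iq q)))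
      ((Xq' q).tr (w (iq q))) ≠ 0
    rw [dvolw_tr _ _ _ _ _ (hwt _ _ _)]
    have h1 : (V.map (red (Nat.dvd_of_mem_primeFactors q.1.1.2))).chi (w (iq q)) = 1 := by
      obtain ⟨l, hl⟩ := Subgroup.mem_zpowers_iff.1 (hw (iq q))
      rw [← hl, hu]
      show red (Nat.dvd_of_mem_primeFactors q.1.1.2) (V.chi ((z ^ k) ^ l)) = 1
      have h2 : V.chi ((z ^ k) ^ l) = 1 := by
        have h3 : V.chi (z ^ k) = 1 := by rw [map_pow, hz, one_pow]
        obtain ⟨l, rfl | rfl⟩ := l.eq_nat_or_neg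
        · rw [zpow_natCast, map_pow, h3, one_pow]
        · have h4 : V.chi ((z ^ k) ^ (-(l : ℤ))) * V.chi ((z ^ k) ^ l) = 1 := by
            rw [← map_mul, zpow_neg, zpow_natCast, inv_mul_cancel, map_one]
          rw [map_pow, h3, one_pow, mul_one] at h4
          exact h4
      rw [h2, map_one]
    rw [h1, one_mul]
    exact hdq q
  · intro cc
    obtain ⟨T', hT1, hT'⟩ := hT cc
    refine ⟨T', hT1, fun p hp γ => ?_⟩
    exact hT' (ZMod p) (V.map (red (Nat.dvd_of_mem_primeFactors hp))) (fun l => by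
      show red (Nat.dvd_of_mem_primeFactors hp) (V.chi (z ^ h l)) = 1
      rw [map_pow V.chi, hz, one_pow, map_one]) γ

end Pool.Agent.Lib.MP_688fd0_co.SQ3
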