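import Pool.Agent.Lib.MP_688fd0_co.SQ3.Iface
import Pool.Agent.Lib.MP_688fd0_co.OSF.Iface2
import Pool.Agent.Lib.MP_688fd0_co.OSF.H3.Main

/-!
MAIN-E: induction on the order of the group.
-/

set_option autoImplicit false

namespace Pool.Agent.Lib.MP_688fd0_co.SQ3

open Pool.Agent.Lib.MP_688fd0_co.OSF Pool.Agent.Lib.MP_688fd0_co.SQ2
open Subgroup

theorem main (hS : StrS) (hLo : LoopS.{0}) (hG : Smallgen2S.{0}) (hQ : GnqS) : MainS := by
  obtain ⟨c₀, hS⟩ := hS
  refine ⟨3 * c₀, ?_⟩
  have key : ∀ n : ℕ, ∀ (G : Type) [Group G] [Finite G] (N C : Subgroup G) (eps : G →* ℤˣ) (k P : ℕ) (A : Set G),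
      Nat.card G = n → GN N C eps k P → (∀ x ∈ A, x⁻¹ ∈ A) → closure A = ⊤ → (∃ a ∈ A, P ∣ orderOf a) →
      2 ^ ((k + (Nat.card G).primeFactorsList.length) ^ (3 * c₀)) ≤ P → Lst A := by
    intro n
    induction n using Nat.strong_induction_on with
    | _ n ih =>
      intro G _ _ N C eps k P A hn hg hinv hA hPA hPb
      obtain ⟨a₀, ha₀A, ha₀⟩ := hPA
      obtain ⟨l, hl1, hl2, hl3⟩ := hG G A hA
      obtain ⟨A', hA'⟩ : ∃ A' : Set G, A' = {x | x ∈ a₀ :: l} ∪ {x | x⁻¹ ∈ a₀ :: l} := ⟨_, rfl⟩
      have hl1' : ∀ x ∈ a₀ :: l, x ∈ A := by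
        intro x hx
        rcases List.mem_cons.1 hx with rfl | hx
        · exact ha₀A
        · exact hl1 x hx
      have hsub : A' ⊆ A := by
        rw [hA']
        rintro x (hx | hx)
        · exact hl1' x hx
        · have h1 := hinv _ (hl1' _ hx)
          rwa [inv_inv] at h1
      have hPG : P ∣ Nat.card G := hg.dvd.trans (card_subgroup_dvd_card N)
      have hω : 1 ≤ (Nat.card G).primeFactorsList.length :=
        List.length_pos_of_mem ((Nat.mem_primeFactorsList Nat.card_pos.ne').2 ⟨hg.prime, hPG⟩)
      have hk : 1 ≤ k := by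
        rw [← hg.idx]
        exact Nat.pos_of_ne_zero N.index_ne_zero_of_finite
      by_cases hone : ∀ g ∈ A', g ∈ C → g = 1
      · refine H3.Lst.mono hsub (hS G N C eps k P A' hg ?_ ?_ hone ⟨a₀, ?_, ha₀⟩ ?_)
        · intro x hx
          rw [hA'] at hx ⊢
          rcases hx with hx | hx
          · right
            change x⁻¹⁻¹ ∈ a₀ :: l
            rw [inv_inv]; exact hx
          · left; exact hx
        · rw [eq_top_iff, ← hl3]
          refine closure_mono ?_
          rw [hA']
          exact fun x hx => Or.inl (List.mem_cons_of_mem _ hx)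
        · rw [hA']
          exact Or.inl List.mem_cons_self
        · have hcard : Nat.card A' ≤ 2 * ((Nat.card G).primeFactorsList.length + 1) := by
            classical
            have h1 : A' = (((a₀ :: l).toFinset ∪ (a₀ :: l).toFinset.image (fun x => x⁻¹) : Finset G) : Set G) := by
              rw [hA']
              ext x
              simp only [Set.mem_union, Set.mem_ofPred_eq, Finset.coe_union, Finset.mem_coe,
                List.mem_toFinset, Finset.coe_image, Set.mem_image]
              refine or_congr Iff.rfl ⟨fun h => ⟨x⁻¹, h, inv_inv x⟩, ?_⟩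
              rintro ⟨y, hy, rfl⟩
              rw [inv_inv]; exact hy
            have h2 : Nat.card A' = ((a₀ :: l).toFinset ∪ (a₀ :: l).toFinset.image (fun x => x⁻¹)).card := by
              rw [Nat.card_coe_set_eq, h1, Set.ncard_coe_finset]
            rw [h2]
            refine (Finset.card_union_le _ _).trans ?_
            have h3 := List.toFinset_card_le (a₀ :: l)
            rw [List.length_cons] at h3
            have h4 : ((a₀ :: l).toFinset.image (fun x => x⁻¹)).card ≤ (a₀ :: l).toFinset.card :=
              Finset.card_image_le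
            omega
          refine le_trans (Nat.pow_le_pow_right (by norm_num) ?_) hPb
          rw [pow_mul]
          refine Nat.pow_le_pow_left ?_ c₀
          obtain ⟨y, hy⟩ : ∃ y, y = k + (Nat.card G).primeFactorsList.length := ⟨_, rfl⟩
          rw [← hy]
          have hy2 : 2 ≤ y := by omega
          have h1 : k + Nat.card A' + (Nat.card G).primeFactorsList.length ≤ 4 * y := by omega
          refine h1.trans ?_
          have h3 : 4 ≤ y ^ 2 := by nlinarith
          calc 4 * y ≤ y ^ 2 * y := Nat.mul_le_mul_right y h3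
            _ = y ^ 3 := by ring
      · push Not at hone
        obtain ⟨a, haA, hac, hane⟩ := hone
        obtain ⟨hNn, eps', heps', hg'⟩ := hQ G N C eps k P hg a hac
        refine hLo G A a (hsub haA) hNn ?_
        have hcq : Nat.card (G ⧸ zpowers a) * Nat.card (zpowers a) = Nat.card G :=
          (Subgroup.card_eq_card_quotient_mul_card_subgroup (zpowers a)).symm
        have hdq : Nat.card (G ⧸ zpowers a) ∣ Nat.card G := ⟨_, hcq.symm⟩
        have ho : 1 < Nat.card (zpowers a) := by
          rw [Nat.card_zpowers]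
          have h1 := orderOf_pos a
          have h2 : orderOf a ≠ 1 := fun h => hane (orderOf_eq_one_iff.1 h)
          omega
        have hpos : 0 < Nat.card (G ⧸ zpowers a) := Nat.card_pos
        have hsurj := QuotientGroup.mk'_surjective (zpowers a)
        refine ih (Nat.card (G ⧸ zpowers a)) ?_ (G ⧸ zpowers a) _ _ eps' k P _ rfl hg' ?_ ?_ ?_ ?_
        · rw [← hn, ← hcq]
          exact lt_mul_of_one_lt_right hpos ho
        · rintro _ ⟨x, hx, rfl⟩
          exact ⟨x⁻¹, hinv x hx, map_inv _ x⟩
        · rw [← MonoidHom.map_closure, hA, ← MonoidHom.range_eq_map, MonoidHom.range_eq_top]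
          exact hsurj
        · refine ⟨_, ⟨a₀, ha₀A, rfl⟩, ?_⟩
          have h1 : a₀ ^ (orderOf (QuotientGroup.mk' (zpowers a) a₀) * Nat.card (zpowers a)) = 1 := by
            have h2 : a₀ ^ orderOf (QuotientGroup.mk' (zpowers a) a₀) ∈ zpowers a := by
              rw [← QuotientGroup.eq_one_iff]
              show QuotientGroup.mk' (zpowers a) (a₀ ^ _) = 1
              rw [map_pow, pow_orderOf_eq_one]
            rw [pow_mul]
            have h3 := pow_card_eq_one' (x := (⟨_, h2⟩ : zpowers a))
            exact congrArg (fun y : zpowers a => (y : G)) h3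
          refine (hg.prime.dvd_mul.1 (ha₀.trans (orderOf_dvd_of_pow_eq_one h1))).resolve_right fun h2 => ?_
          exact hg.ndvd (h2.trans (card_dvd_of_le (zpowers_le.2 hac)))
        · refine le_trans (Nat.pow_le_pow_right (by norm_num) (Nat.pow_le_pow_left ?_ _)) hPb
          exact Nat.add_le_add_left (Nat.primeFactorsList_sublist_of_dvd hdq Nat.card_pos.ne').length_le k
  intro G _ _ N C eps k P A hg hinv hA hPA hPb
  exact key _ G N C eps k P A rfl hg hinv hA hPA hPb

end Pool.Agent.Lib.MP_688fd0_co.SQ3
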