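import Pool.Agent.Lib.MP_688fd0_co.SQ3.Iface
import Pool.Agent.Lib.MP_688fd0_co.SQ2.H23.HeartA

/-!
HEART (stage E), tools: the lines, translation of flat windows, the leaves.
-/

set_option autoImplicit false

namespace Pool.Agent.Lib.MP_688fd0_co.SQ3

open Pool.Agent.Lib.MP_688fd0_co.OSF Pool.Agent.Lib.MP_688fd0_co.SQ2

universe u v w

section tr

variable {Q : Type u} [Group Q] [DecidableEq Q] {B : Lb.{u, v} Q} {U : Up B} {y : Q}

omit [DecidableEq Q] in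
theorem pow_tr (hy : ∀ x, U.U (y * x) = y * U.U x) (n : ℕ) (x : Q) : (U.U ^ n) (y * x) = y * (U.U ^ n) x := by
  induction n with
  | zero => rfl
  | succ n ih => rw [U.U_pow_succ', U.U_pow_succ', ih, hy]

omit [DecidableEq Q] in
theorem im_ltr (hy : ∀ x, U.U (y * x) = y * U.U x) (n : ℕ) (L : Finset Q) :
    im (U.U ^ n) (lt y L) = lt y (im (U.U ^ n) L) := by
  ext x
  rw [mem_im, mem_lt, mem_lt, mem_im]
  have h1 : y⁻¹ * (U.U ^ n)⁻¹ x = (U.U ^ n)⁻¹ (y⁻¹ * x) := by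
    rw [Equiv.Perm.eq_inv_iff_eq]
    have h2 := pow_tr hy n (y⁻¹ * (U.U ^ n)⁻¹ x)
    rw [mul_inv_cancel_left] at h2
    have h3 : (U.U ^ n) ((U.U ^ n)⁻¹ x) = x := by simp
    rw [h3] at h2
    exact eq_inv_mul_of_mul_eq h2.symm
  rw [h1]

/-- Translation of a flat window. -/
theorem Flat.ltr {X : TW B} {n : ℕ} {xs : Q} (h : Flat U X n xs) (hy : ∀ x, U.U (y * x) = y * U.U x) :
    Flat U (X.tr y) n (y * xs) where
  pos := h.pos
  top := by
    show lt y X.L₁ = im (U.U ^ n) (lt y X.L₀)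
    rw [h.top, im_ltr hy]
  reg := by
    rw [TW.tr_R, h.reg, ← Multiset.coe_mapAddMonoidHom, map_sum]
    refine Finset.sum_congr rfl fun i _ => ?_
    show (im (U.U ^ i) X.L₀).val.map (y * ·) = (im (U.U ^ i) (lt y X.L₀)).val
    rw [im_ltr hy]; rfl
  xs_mem := by rw [tr_tok₀, inv_mul_cancel_left]; exact h.xs_mem
  w₀ := by
    show y * X.w₀ = (U.U ^ n) (y * X.u₁)
    rw [h.w₀, pow_tr hy]
  w₁ := by
    show y * X.w₁ = (U.U ^ n) (y * xs)
    rw [h.w₁, pow_tr hy]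
  f_xs := by
    show y * X.f (y⁻¹ * (y * xs)) = (U.U ^ n) (y * X.u₀)
    rw [inv_mul_cancel_left, h.f_xs, pow_tr hy]
  f := fun x hx hne => by
    show y * X.f (y⁻¹ * x) = (U.U ^ n) x
    rw [tr_tok₀] at hx
    rw [h.f _ hx (fun h => hne (by rw [← h, mul_inv_cancel_left])), ← pow_tr hy, mul_inv_cancel_left]

theorem Ver.ltr {X X' : TW B} {n : ℕ} {xs : Q} (h : Ver U X X' n xs) (hy : ∀ x, U.U (y * x) = y * U.U x) :
    Ver U (X.tr y) (X'.tr y) n (y * xs) where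
  flat := h.flat.ltr hy
  flat' := h.flat'.ltr hy
  L₀ := congrArg (lt y) h.L₀
  u₀ := congrArg (y * ·) h.u₀
  u₁ := congrArg (y * ·) h.u₁
  cup := h.cup
  cap := h.cap

/-- Translation and change of volume. -/
theorem dvolw_tr {R : Type w} [CommRing R] (V : Vd B R) (wt : Q → R) (X X' : TW B) (y : Q)
    (hd : ∀ x, wt (y * x) = wt x) : dvolw V wt (X.tr y) (X'.tr y) = V.chi y * dvolw V wt X X' := by
  unfold dvolw
  rw [Finset.mul_sum]
  refine Finset.sum_nbij' (fun x => y⁻¹ * x) (fun x => y * x) ?_ ?_ ?_ ?_ ?_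
  · intro x hx; exact (tr_tok₀ X y x).1 hx
  · intro x hx
    rw [tr_tok₀, inv_mul_cancel_left]; exact hx
  · intro x _; exact mul_inv_cancel_left y x
  · intro x _; exact inv_mul_cancel_left y x
  · intro x _
    have e1 : wt (y⁻¹ * x) = wt x := by rw [← hd (y⁻¹ * x), mul_inv_cancel_left]
    have e2 : V.vol x ((X.tr y).path x) = V.chi y * V.vol (y⁻¹ * x) (X.path (y⁻¹ * x)) := by
      rw [← vol_tr, mul_inv_cancel_left]; rfl
    have e3 : V.vol x ((X'.tr y).path x) = V.chi y * V.vol (y⁻¹ * x) (X'.path (y⁻¹ * x)) := by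
      rw [← vol_tr, mul_inv_cancel_left]; rfl
    rw [e1, e2, e3]
    ring

end tr

/-- The tree condition depends only on the lines. -/
theorem TreeK.congr {Q : Type u} {Λ : Type*} {K : Type*} {ln : Q → Λ} {k : Q → K} {ι : Type*}
    {c l m c' l' m' : ι → Q} {rk : ι → ℕ} (h : TreeK ln k c l m rk) (hc : ∀ i, ln (c' i) = ln (c i))
    (hl : ∀ i, ln (l' i) = ln (l i)) (hm : ∀ i, ln (m' i) = ln (m i)) (kc : ∀ i, k (c' i) = k (c i))
    (kl : ∀ i, k (l' i) = k (l i)) (km : ∀ i, k (m' i) = k (m i)) : TreeK ln k c' l' m' rk where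
  cl := fun i => by rw [hc, hl]; exact h.cl i
  cm := fun i => by rw [hc, hm]; exact h.cm i
  lm := fun i => by rw [hl, hm]; exact h.lm i
  kl := fun i => by rw [kl, kc]; exact h.kl i
  km := fun i => by rw [km, kc]; exact h.km i
  two := fun i => by
    obtain ⟨p, h1, h2⟩ := h.two i
    refine ⟨fun x => ∃ y, p y ∧ ln x = ln y, ?_, ?_⟩
    · rcases h1 with ⟨h3, h4⟩ | ⟨h3, h4⟩ | ⟨h3, h4⟩
      · exact Or.inl ⟨⟨_, h3, hc i⟩, ⟨_, h4, hl i⟩⟩
      · exact Or.inr (Or.inl ⟨⟨_, h3, hc i⟩, ⟨_, h4, hm i⟩⟩)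
      · exact Or.inr (Or.inr ⟨⟨_, h3, hl i⟩, ⟨_, h4, hm i⟩⟩)
    · rintro x ⟨y, hy, hxy⟩ j hj h3
      rw [hxy, hc, hl, hm] at h3
      exact h2 y hy j hj h3
  cov := fun ρ hρ h1 => h.cov ρ hρ fun i => by
    have := h1 i
    rw [hc, hl, hm] at this
    exact this

section hyp

variable {Q : Type} [Group Q] {B : Lb.{0, 0} Q} {a : B.L} {eps : Q →* ℤˣ} {D : Subgroup Q} {z : Q} {k : ℕ}
  (H : Hyp B a eps D z k)

include H

theorem Hyp.up_def (x : Q) : H.up.up x = if eps x = 1 then a else B.inv a := rfl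

theorem Hyp.U_def (x : Q) : H.up.U x = x * B.q a ^ ((eps x : ℤˣ) : ℤ) := rfl

theorem Hyp.eps_U (x : Q) : eps (H.up.U x) = eps x := by
  rw [H.U_def, map_mul, map_zpow, H.ea, one_zpow, mul_one]

theorem Hyp.U_pow (n : ℕ) (x : Q) : (H.up.U ^ n) x = x * B.q a ^ (((eps x : ℤˣ) : ℤ) * n) := by
  induction n with
  | zero => rw [pow_zero, Nat.cast_zero, mul_zero, zpow_zero, mul_one]; rfl
  | succ n ih =>
    rw [H.up.U_pow_succ', ih, H.U_def]
    have h1 : eps (x * B.q a ^ (((eps x : ℤˣ) : ℤ) * n)) = eps x := by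
      rw [map_mul, map_zpow, H.ea, one_zpow, mul_one]
    rw [h1, mul_assoc, ← zpow_add]
    congr 2
    push_cast
    ring

theorem Hyp.U_zpow (n : ℤ) (x : Q) : (H.up.U ^ n) x = x * B.q a ^ (((eps x : ℤˣ) : ℤ) * n) := by
  obtain ⟨n, rfl | rfl⟩ := n.eq_nat_or_neg
  · rw [zpow_natCast]; exact H.U_pow n x
  · rw [zpow_neg, zpow_natCast, Equiv.Perm.inv_eq_iff_eq, H.U_pow]
    have h1 : eps (x * B.q a ^ (((eps x : ℤˣ) : ℤ) * -(n : ℤ))) = eps x := by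
      rw [map_mul, map_zpow, H.ea, one_zpow, mul_one]
    rw [h1, mul_assoc, ← zpow_add, mul_neg, neg_add_cancel, zpow_zero, mul_one]

theorem Hyp.eps_z : eps z = 1 := by
  have h1 : eps (z⁻¹ * B.q a) = 1 := H.le H.mem
  rw [map_mul, map_inv, H.ea, mul_one, inv_eq_one] at h1
  exact h1

theorem Hyp.eps_zpow (n : ℤ) : eps (z ^ n) = 1 := by rw [map_zpow, H.eps_z, one_zpow]

/-- `z` commutes with the elements of the kernel of `eps`. -/
theorem Hyp.z_com {g : Q} (hg : eps g = 1) : Commute g z := by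
  have h1 := H.tw g
  rw [hg, Units.val_one, zpow_one, mul_inv_eq_iff_eq_mul] at h1
  exact h1

theorem Hyp.z_anti {g : Q} (hg : eps g = -1) : g * z = z⁻¹ * g := by
  have h1 := H.tw g
  rw [hg, Units.val_neg, Units.val_one, zpow_neg_one, mul_inv_eq_iff_eq_mul] at h1
  exact h1

theorem Hyp.dat : H.up.Dat eps.ker D z where
  upc := fun g hg x => by
    rw [H.up_def, H.up_def, map_mul, show eps g = 1 from hg, one_mul]
  nrm := H.nrm
  le := H.le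
  hz := H.eps_z
  mem := fun x => by
    rw [H.U_def]
    rcases Int.units_eq_one_or (eps x) with h | h
    · rw [h, Units.val_one, zpow_one]
      have h1 : x⁻¹ * (z⁻¹ * (x * B.q a)) = z⁻¹ * B.q a := by
        have h2 : x⁻¹ * z⁻¹ = z⁻¹ * x⁻¹ := by
          have h3 := (H.z_com h).inv_inv.eq
          exact h3
        rw [← mul_assoc, h2]
        group
      rw [h1]; exact H.mem
    · rw [h, Units.val_neg, Units.val_one, zpow_neg_one]
      have h1 : x⁻¹ * (z⁻¹ * (x * (B.q a)⁻¹)) = z * (B.q a)⁻¹ := by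
        have h2 : z⁻¹ * x = x * z := (H.z_anti h).symm
        rw [← mul_assoc z⁻¹, h2]
        group
      rw [h1]
      have h3 := H.nrm.conj_mem _ (D.inv_mem H.mem) z
      have e : z * (z⁻¹ * B.q a)⁻¹ * z⁻¹ = z * (B.q a)⁻¹ := by group
      rwa [e] at h3

theorem Hyp.hpow_k : B.q a ^ k = z ^ k := by
  have h2 : Commute z (z⁻¹ * B.q a) := (H.z_com (H.le H.mem)).symm
  have h1 : B.q a ^ k = z ^ k * (z⁻¹ * B.q a) ^ k := by
    rw [← h2.mul_pow, mul_inv_cancel_left]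
  have hf := H.fin
  have h3 : (z⁻¹ * B.q a) ^ k = 1 := by
    obtain ⟨q, hq⟩ := H.card
    have h4 : (⟨_, H.mem⟩ : D) ^ Nat.card D = 1 := pow_card_eq_one'
    have h5 := congrArg Subtype.val h4
    have h6 : (z⁻¹ * B.q a) ^ Nat.card D = 1 := h5
    rw [hq, pow_mul, h6, one_pow]
  rw [h1, h3, mul_one]

theorem Hyp.U_kz (l : ℤ) (x : Q) : (H.up.U ^ ((k : ℤ) * l)) x = (z ^ k) ^ l * x := by
  rw [H.U_zpow, show (((eps x : ℤˣ) : ℤ) * ((k : ℤ) * l)) = (k : ℤ) * (((eps x : ℤˣ) : ℤ) * l) by ring, zpow_mul,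
    zpow_natCast, H.hpow_k]
  rcases Int.units_eq_one_or (eps x) with h | h
  · rw [h, Units.val_one, one_mul]
    exact (((H.z_com h).pow_right k).zpow_right l).eq
  · rw [h, Units.val_neg, Units.val_one, neg_mul, one_mul, zpow_neg, ← inv_zpow, ← inv_pow]
    have h1 : SemiconjBy x z⁻¹ z := by
      have h2 : SemiconjBy x z z⁻¹ := H.z_anti h
      have h3 := h2.inv_right
      rwa [inv_inv] at h3
    exact ((h1.pow_right k).zpow_right l).eq

theorem Hyp.U_dvd {n : ℕ} (h : k ∣ n) (x : Q) : (H.up.U ^ n) x = z ^ n * x := by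
  obtain ⟨q, rfl⟩ := h
  have h1 := H.U_kz q x
  rw [zpow_natCast, ← pow_mul] at h1
  rw [← h1]
  exact congrArg (fun (e : Equiv.Perm Q) => e x) (by rw [← zpow_natCast]; push_cast; rfl)

theorem Hyp.U_tr {g : Q} (hg : eps g = 1) (x : Q) : H.up.U (g * x) = g * H.up.U x :=
  H.dat.com (show g ∈ eps.ker from hg) x

theorem Hyp.ln_U (n : ℤ) (y : Q) : (((H.up.U ^ n) y : Q) : Q ⧸ Subgroup.zpowers (B.q a)) = (y : Q ⧸ _) := by
  rw [H.U_zpow, QuotientGroup.eq, mul_inv_rev, inv_mul_cancel_right]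
  exact Subgroup.inv_mem _ (Subgroup.zpow_mem_zpowers _ _)

theorem Hyp.ln_eq {x y : Q} (h : (x : Q ⧸ Subgroup.zpowers (B.q a)) = (y : Q ⧸ _)) :
    ∃ m : ℕ, y = (H.up.U ^ m) x := by
  have hf := H.fin
  have h1 : x⁻¹ * y ∈ Subgroup.zpowers (B.q a ^ ((eps x : ℤˣ) : ℤ)) := by
    have h2 : x⁻¹ * y ∈ Subgroup.zpowers (B.q a) := QuotientGroup.eq.1 h
    rcases Int.units_eq_one_or (eps x) with h | h
    · rw [h, Units.val_one, zpow_one]; exact h2
    · rw [h, Units.val_neg, Units.val_one, zpow_neg_one, Subgroup.zpowers_inv]; exact h2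
  obtain ⟨m, hm⟩ := Submonoid.mem_powers_iff _ _ |>.1 (mem_powers_iff_mem_zpowers.2 h1)
  refine ⟨m, ?_⟩
  rw [H.U_pow, zpow_mul, zpow_natCast, hm, mul_inv_cancel_left]

/-- The leaves exist. -/
theorem leavesU {c W : ℕ} {F : Finset Q} (hF : Fr H.up D W F) {x : Q} {b₁ b₂ : B.L} {j : ℕ}
    (h1 : ∃ o : ℤ, |o| ≤ c ∧ (H.up.U ^ o) (x * B.q b₁) ∈ F) (h2 : ∃ o : ℤ, |o| ≤ c ∧ (H.up.U ^ o) (x * B.q b₂) ∈ F) :
    ∃ s₁ s₂, Leaves H.up F x b₁ b₂ j c s₁ s₂ := by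
  obtain ⟨o₁, a1, a2⟩ := h1
  obtain ⟨o₂, a3, a4⟩ := h2
  have hdat := H.dat
  obtain ⟨y, hy⟩ : ∃ y, y = (H.up.U ^ j) x * B.q b₂ := ⟨_, rfl⟩
  refine ⟨_, (H.up.U ^ (o₂ - (j : ℤ))) y, a2, ?_, ⟨-o₁, by rwa [abs_neg], ?_⟩, ⟨(j : ℤ) - o₂, ?_, ?_⟩⟩
  · -- `y` and `U ^ j (x b₂)` are in the same sheet
    have h3 : ((H.up.U ^ (j : ℤ)) (x * B.q b₂))⁻¹ * y ∈ D := by
      have e1 := hdat.mem_zpow (j : ℤ) (x * B.q b₂)
      have e2 := hdat.mem_zpow (j : ℤ) x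
      have e3 := H.nrm.conj_mem _ e2 (B.q b₂)⁻¹
      rw [inv_inv] at e3
      have e4 : y = (H.up.U ^ (j : ℤ)) x * B.q b₂ := by rw [hy, zpow_natCast]
      have e5 := D.mul_mem (D.inv_mem e1) e3
      have e6 : ((x * B.q b₂)⁻¹ * ((z ^ (j : ℤ))⁻¹ * (H.up.U ^ (j : ℤ)) (x * B.q b₂)))⁻¹ *
          ((B.q b₂)⁻¹ * (x⁻¹ * ((z ^ (j : ℤ))⁻¹ * (H.up.U ^ (j : ℤ)) x)) * B.q b₂) =
          ((H.up.U ^ (j : ℤ)) (x * B.q b₂))⁻¹ * y := by
        rw [e4]
        generalize (H.up.U ^ (j : ℤ)) (x * B.q b₂) = p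
        generalize (H.up.U ^ (j : ℤ)) x = q
        group
      rwa [e6] at e5
    have h4 := hdat.sheet h3 (o₂ - (j : ℤ))
    have h5 : (H.up.U ^ (o₂ - (j : ℤ))) ((H.up.U ^ (j : ℤ)) (x * B.q b₂)) = (H.up.U ^ o₂) (x * B.q b₂) := by
      rw [← Equiv.Perm.mul_apply, ← zpow_add, sub_add_cancel]
    rw [h5] at h4
    have h6 := hF.inv _ a4 _ h4
    rwa [mul_inv_cancel_left] at h6
  · rw [← Equiv.Perm.mul_apply, ← zpow_add, neg_add_cancel]; rfl
  · calc |(j : ℤ) - o₂| ≤ |(j : ℤ)| + |o₂| := abs_sub _ _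
      _ ≤ c + j := by rw [abs_of_nonneg (Int.natCast_nonneg j)]; omega
  · rw [← Equiv.Perm.mul_apply, ← zpow_add, sub_add_sub_cancel, sub_self, ← hy]; rfl

end hyp

end Pool.Agent.Lib.MP_688fd0_co.SQ3
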