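import Pool.Agent.Lib.MP_688fd0_co.SQ3.H23.Str
import Pool.Agent.Lib.MP_688fd0_co.SQ3.H23.Main
import Pool.Agent.Lib.MP_688fd0_co.SQ3.H23.Final
import Pool.Agent.Lib.MP_688fd0_co.SQ3.H23.Heart
import Pool.Agent.Lib.MP_688fd0_co.SQ3.H23.Blocks
import Pool.Agent.Lib.MP_688fd0_co.SQ3.H16.Near
import Pool.Agent.Lib.MP_688fd0_co.SQ3.H94.Ctx
import Pool.Agent.Lib.MP_688fd0_co.SQ3.H94.Dstr
import Pool.Agent.Lib.MP_688fd0_co.SQ3.H41.Gn
import Pool.Agent.Lib.MP_688fd0_co.SQ3.H41.Scale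
import Pool.Agent.Lib.MP_688fd0_co.SQ3.H41.Nice
import Pool.Agent.Lib.MP_688fd0_co.SQ3.H80.Kap
import Pool.Agent.Lib.MP_688fd0_co.SQ3.H43.Factor2
import Pool.Agent.Lib.MP_688fd0_co.SQ3.V.FlipAll
import Pool.Agent.Lib.MP_688fd0_co.SQ3.Small.All
import Pool.Agent.Lib.MP_688fd0_co.SQ2.H23.All
import Pool.Agent.Lib.MP_688fd0_co.OSF.H74.Loop
import Pool.Agent.Lib.MP_688fd0_co.OSF.H87.Smallgen2

/-!
Orders of any parity: the assembly.
-/

set_option autoImplicit false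

namespace Pool.Agent.Lib.MP_688fd0_co.SQ3

open Pool.Agent.Lib.MP_688fd0_co.OSF

theorem heartS : HeartS := heart flipS H94.ctx near blocks

theorem smallS : SmallS := Small.small Small.sqS kap hdata H43.factor2 Small.lift

/-- **MAIN.** -/
theorem mainAll : MainS :=
  main (str heartS scale kap H94.dstr H43.factor2 smallS hdata SQ2.main3All) loop H87.smallgen2 gnq

end Pool.Agent.Lib.MP_688fd0_co.SQ3
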