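import Pool.Agent.Lib.MP_688fd0_co.SQ2.H41.Gne

/-!
Counting groups, part A: groups with a normal subgroup of prime order that is centralised or inverted.
-/

set_option autoImplicit false

namespace Pool.Agent.Lib.MP_688fd0_co.SQ3

open Subgroup

/-- The action of `1` and `-1` on a commutative group. -/
def sgnAct (N : Type*) [CommGroup N] : ℤˣ →* MulAut N where
  toFun u :=
    { toFun := fun x => x ^ (u : ℤ)
      invFun := fun x => x ^ (u : ℤ)
      left_inv := fun x => by
        show (x ^ (u : ℤ)) ^ (u : ℤ) = x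
        rw [← zpow_mul, Int.units_coe_mul_self, zpow_one]
      right_inv := fun x => by
        show (x ^ (u : ℤ)) ^ (u : ℤ) = x
        rw [← zpow_mul, Int.units_coe_mul_self, zpow_one]
      map_mul' := fun x y => mul_zpow x y _ }
  map_one' := by
    ext x
    show x ^ ((1 : ℤˣ) : ℤ) = x
    simp
  map_mul' u v := by
    ext x
    show x ^ ((u * v : ℤˣ) : ℤ) = (x ^ (v : ℤ)) ^ (u : ℤ)
    rw [← zpow_mul, Units.val_mul, mul_comm]

theorem sgnAct_apply {N : Type*} [CommGroup N] (u : ℤˣ) (x : N) : sgnAct N u x = x ^ (u : ℤ) := rfl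

/-- The structure of `G`. -/
theorem semi {G : Type*} [Group G] [Finite G] {P : ℕ} (hP : P.Prime) (hP2 : P ≠ 2) (hsq : ¬ P ^ 2 ∣ Nat.card G)
    {y : G} (hy : orderOf y = P) (hact : ∀ g, g * y * g⁻¹ = y ∨ g * y * g⁻¹ = y⁻¹) (hn : (zpowers y).Normal)
    {H : Type*} [Group H] (e : G ⧸ zpowers y ≃* H) :
    ∃ χ : H →* ℤˣ, Nonempty (G ≃* Multiplicative (ZMod P) ⋊[(sgnAct _).comp χ] H) := by
  have hfact : Fact P.Prime := ⟨hP⟩
  have hy2 : y ^ 2 ≠ 1 := by
    intro h
    have h1 := orderOf_dvd_of_pow_eq_one h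
    rw [hy] at h1
    have h2 := Nat.le_of_dvd (by norm_num) h1
    have h3 := hP.two_le
    omega
  obtain ⟨eps, heps⟩ := SQ2.H41.exists_eps hy2 hact
  have hcard : Nat.card (zpowers y) = P := by rw [Nat.card_zpowers, hy]
  have hmul := (zpowers y).card_mul_index
  rw [hcard] at hmul
  have hcop : (Nat.card (zpowers y)).Coprime (zpowers y).index := by
    rw [hcard]
    refine (Nat.Prime.coprime_iff_not_dvd hP).2 ?_
    rintro ⟨t, ht⟩
    apply hsq
    rw [← hmul, ht, pow_two]
    exact ⟨t, by ring⟩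
  obtain ⟨K, hK⟩ := exists_right_complement'_of_coprime hcop
  have hact' : ∀ x ∈ zpowers y, ∀ g : G, g * x * g⁻¹ = x ^ ((eps g : ℤˣ) : ℤ) := by
    rintro x hx g
    obtain ⟨i, rfl⟩ := mem_zpowers_iff.1 hx
    rw [← conj_zpow, heps, ← zpow_mul, ← zpow_mul, mul_comm]
  have hey : ∀ x ∈ zpowers y, eps x = 1 := by
    intro x hx
    rcases Int.units_eq_one_or (eps x) with h | h
    · exact h
    · exfalso
      obtain ⟨i, rfl⟩ := mem_zpowers_iff.1 hx
      have h1 := heps (y ^ i)
      rw [h, Units.val_neg, Units.val_one, zpow_neg_one] at h1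
      apply hy2
      have h2 : y ^ i * y * (y ^ i)⁻¹ = y := by group
      rw [h2] at h1
      rw [pow_two]
      nth_rewrite 1 [h1]
      group
  let ψ : G ⧸ zpowers y →* ℤˣ := QuotientGroup.lift (zpowers y) eps hey
  let φ₀ := SemidirectProduct.mulEquivSubgroup hK
  let q : G ⧸ zpowers y ≃* K := hK.symm.QuotientMulEquiv
  have hq : ∀ k : K, ψ (q.symm k) = eps k := fun k => rfl
  let fn : zpowers y ≃* Multiplicative (ZMod P) := mulEquivOfPrimeCardEq (p := P) hcard (by simp)
  refine ⟨ψ.comp e.symm.toMonoidHom, ⟨φ₀.symm.trans (SemidirectProduct.congr fn (q.symm.trans e) ?_)⟩⟩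
  intro k
  ext1 x
  have h1 : (((zpowers y).normalizerMonoidHom.comp (inclusion
      ((zpowers y).normalizer_eq_top ▸ le_top))) k) x = x ^ ((eps k : ℤˣ) : ℤ) := by
    apply Subtype.ext
    rw [coe_zpow, ← hact' _ x.2 k]
    rfl
  show fn ((((zpowers y).normalizerMonoidHom.comp (inclusion
      ((zpowers y).normalizer_eq_top ▸ le_top))) k) x) = (fn x) ^ ((ψ (e.symm (e (q.symm k))) : ℤˣ) : ℤ)
  rw [h1, map_zpow, MulEquiv.symm_apply_apply, hq]

/-- Cancellation of a factor of order prime to the others. -/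
theorem cancel {Z A B : Type*} [Group Z] [Group A] [Group B] [Finite Z] [Finite A] [Finite B]
    (hA : (Nat.card Z).Coprime (Nat.card A)) (e : Z × A ≃* Z × B) : Nonempty (A ≃* B) := by
  have hc : Nat.card A = Nat.card B := by
    have h1 := Nat.card_congr e.toEquiv
    rw [Nat.card_prod, Nat.card_prod] at h1
    exact Nat.eq_of_mul_eq_mul_left Nat.card_pos h1
  let f : A →* B := (MonoidHom.snd Z B).comp (e.toMonoidHom.comp (MonoidHom.inr Z A))
  have hf : Function.Injective f := by
    rw [injective_iff_map_eq_one]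
    intro a ha
    have h1 : e (1, a) ^ Nat.card A = 1 := by
      rw [← map_pow, Prod.pow_mk, one_pow, pow_card_eq_one']
      exact map_one e
    have h2 : (e (1, a)).2 = 1 := ha
    have h3 : (e (1, a)).1 ^ Nat.card A = 1 := congrArg Prod.fst h1
    have h4 : orderOf (e (1, a)).1 ∣ 1 := by
      rw [← hA]
      exact Nat.dvd_gcd (orderOf_dvd_natCard _) (orderOf_dvd_of_pow_eq_one h3)
    have h5 : (e (1, a)).1 = 1 := orderOf_eq_one_iff.1 (Nat.dvd_one.1 h4)
    have h6 : e (1, a) = 1 := Prod.ext h5 h2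
    have h7 : ((1 : Z), a) = 1 := e.injective (h6.trans (map_one e).symm)
    exact congrArg Prod.snd h7
  exact ⟨MulEquiv.ofBijective f ((Nat.bijective_iff_injective_and_card f).2 ⟨hf, hc⟩)⟩

theorem card_hom_le_card {S : Type*} [Group S] [Finite S] : Nat.card (S →* ℤˣ) ≤ Nat.card S := by
  have : Fintype S := Fintype.ofFinite S
  have h1 := linearIndependent_monoidHom S ℚ
  have hfin : Finite (S →* ℤˣ) := by
    refine Finite.of_injective (fun f : S →* ℤˣ => (f : S → ℤˣ)) DFunLike.coe_injective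
  have h2 : Function.Injective fun f : S →* ℤˣ =>
      ((Int.castRingHom ℚ).toMonoidHom.comp ((Units.coeHom ℤ).comp f) : S →* ℚ) := by
    intro f g h
    ext x
    have h3 := DFunLike.congr_fun h x
    have h4 : ((f x : ℤ) : ℚ) = ((g x : ℤ) : ℚ) := h3
    exact_mod_cast h4
  have h3 := h1.comp _ h2
  have : Fintype (S →* ℤˣ) := Fintype.ofFinite _
  have h4 := h3.fintype_card_le_finrank
  rw [Module.finrank_fintype_fun_eq_card] at h4
  rw [Nat.card_eq_fintype_card, Nat.card_eq_fintype_card]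
  exact h4

/-- The number of sign characters is at most `2 ^ v₂`. -/
theorem card_hom_le {H : Type*} [Group H] [Finite H] :
    Nat.card (H →* ℤˣ) ≤ 2 ^ (Nat.card H).factorization 2 := by
  have hfact : Fact (Nat.Prime 2) := ⟨Nat.prime_two⟩
  obtain ⟨S⟩ : Nonempty (Sylow 2 H) := inferInstance
  have hS : Nat.card S = 2 ^ (Nat.card H).factorization 2 := S.card_eq_multiplicity
  have hfin : Finite (S →* ℤˣ) := by
    refine Finite.of_injective (fun f : S →* ℤˣ => (f : S → ℤˣ)) DFunLike.coe_injective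
  refine le_trans (Nat.card_le_card_of_injective (fun f : H →* ℤˣ => f.comp (S : Subgroup H).subtype) ?_)
    (card_hom_le_card.trans hS.le)
  intro f g hfg
  by_contra hne
  have h1 : f / g ≠ 1 := fun h => hne (div_eq_one.1 h)
  have hker : (S : Subgroup H) ≤ (f / g).ker := by
    intro x hx
    rw [MonoidHom.mem_ker, MonoidHom.div_apply, div_eq_one]
    exact DFunLike.congr_fun hfg (⟨x, hx⟩ : S)
  obtain ⟨x, hx⟩ : ∃ x, (f / g) x ≠ 1 := by
    by_contra h
    push Not at h
    exact h1 (MonoidHom.ext h)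
  have h2 : (f / g) x = -1 := (Int.units_eq_one_or _).resolve_left hx
  have h3 : 2 ∣ (f / g).ker.index := by
    rw [index_ker]
    have h5 : orderOf ((f / g) x) = 2 := by
      rw [h2]
      exact orderOf_eq_prime (by decide) (by decide)
    have h6 : orderOf ((f / g).rangeRestrict x) = 2 := by
      rw [← h5, ← Subgroup.orderOf_coe]
      rfl
    rw [← h6]
    exact orderOf_dvd_natCard _
  have h4 : (f / g).ker.index ∣ (S : Subgroup H).index := index_dvd_of_le hker
  exact S.not_dvd_index (h3.trans h4)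

end Pool.Agent.Lib.MP_688fd0_co.SQ3
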