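import Pool.Agent.Lib.MP_688fd0_co.SQ3.H23.CountA

/-!
Counting groups, part B: almost all isomorphism classes of groups of order `n` centralise one of many primes.
-/

set_option autoImplicit false

namespace Pool.Agent.Lib.MP_688fd0_co.SQ3

open Subgroup

/-- Some element of order `P` is central. -/
def Cen (P : ℕ) (G : Type*) [Group G] : Prop := ∃ y : G, orderOf y = P ∧ ∀ g, g * y = y * g

/-- Some element of order `P` is centralised or inverted by every element. -/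
def Inv (P : ℕ) (G : Type*) [Group G] : Prop :=
  ∃ y : G, orderOf y = P ∧ ∀ g, g * y * g⁻¹ = y ∨ g * y * g⁻¹ = y⁻¹

theorem Cen.equiv {P : ℕ} {G H : Type*} [Group G] [Group H] (e : G ≃* H) (h : Cen P G) : Cen P H := by
  obtain ⟨y, hy, hc⟩ := h
  refine ⟨e y, by rw [← hy]; exact orderOf_injective e.toMonoidHom e.injective y, fun g => ?_⟩
  obtain ⟨g, rfl⟩ := e.surjective g
  rw [← map_mul, ← map_mul, hc]

theorem Inv.equiv {P : ℕ} {G H : Type*} [Group G] [Group H] (e : G ≃* H) (h : Inv P G) : Inv P H := by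
  obtain ⟨y, hy, hc⟩ := h
  refine ⟨e y, by rw [← hy]; exact orderOf_injective e.toMonoidHom e.injective y, fun g => ?_⟩
  obtain ⟨g, rfl⟩ := e.surjective g
  rw [← map_mul, ← map_inv, ← map_mul, ← map_inv]
  rcases hc g with h | h
  · exact Or.inl (congrArg e h)
  · exact Or.inr (congrArg e h)

theorem Inv.normal {G : Type*} [Group G] {y : G} (h : ∀ g, g * y * g⁻¹ = y ∨ g * y * g⁻¹ = y⁻¹) :
    (zpowers y).Normal := by
  refine ⟨fun x hx g => ?_⟩
  obtain ⟨i, rfl⟩ := mem_zpowers_iff.1 hx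
  rw [← conj_zpow]
  rcases h g with h1 | h1 <;> rw [h1]
  · exact zpow_mem (mem_zpowers y) _
  · exact zpow_mem (inv_mem (mem_zpowers y)) _

theorem card_mz (P : ℕ) : Nat.card (Multiplicative (ZMod P)) = P :=
  (Nat.card_congr Multiplicative.toAdd).trans (Nat.card_zmod P)

theorem eq_one_of_coprime {G : Type*} [Group G] {x : G} {a b : ℕ} (hab : a.Coprime b) (ha : x ^ a = 1)
    (hb : x ^ b = 1) : x = 1 := by
  have h : orderOf x ∣ 1 := by
    rw [← hab]
    exact Nat.dvd_gcd (orderOf_dvd_of_pow_eq_one ha) (orderOf_dvd_of_pow_eq_one hb)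
  exact orderOf_eq_one_iff.1 (Nat.dvd_one.1 h)

/-- The group `Z_P × G / Y`. -/
theorem exists_phi {n P : ℕ} (hP : P.Prime) (hP2 : P ≠ 2) (hPn : ¬ P ^ 2 ∣ n) (G : Type) [Group G] [Finite G]
    (hG : Nat.card G = n) (hI : Inv P G) :
    ∃ (H : Type) (_ : Group H) (_ : Finite H), P * Nat.card H = n ∧
      (∃ χ : H →* ℤˣ, Nonempty (G ≃* Multiplicative (ZMod P) ⋊[(sgnAct _).comp χ] H)) ∧
      ∀ P' : ℕ, P'.Prime → P' ≠ P → ¬ P' ^ 2 ∣ n → Inv P' G → Cen P' (Multiplicative (ZMod P) × H) → Cen P' G := by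
  obtain ⟨y, hy, hact⟩ := hI
  have hn := Inv.normal hact
  have hcY : Nat.card (zpowers y) = P := by rw [Nat.card_zpowers, hy]
  have hcard : P * Nat.card (G ⧸ zpowers y) = n := by
    rw [← hG, Subgroup.card_eq_card_quotient_mul_card_subgroup (zpowers y), hcY, mul_comm]
  refine ⟨G ⧸ zpowers y, inferInstance, inferInstance, hcard,
    semi hP hP2 (by rw [hG]; exact hPn) hy hact hn (MulEquiv.refl _), ?_⟩
  rintro P' hP' hne hsq' ⟨y', hy', hact'⟩ ⟨⟨s, u⟩, hsu, hc⟩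
  have hcop : P.Coprime P' := (Nat.coprime_primes hP hP').2 (fun h => hne h.symm)
  have hsuP : (s, u) ^ P' = 1 := by rw [← hsu]; exact pow_orderOf_eq_one _
  have hs : s = 1 := by
    refine eq_one_of_coprime hcop ?_ (congrArg Prod.fst hsuP)
    have h1 := pow_card_eq_one' (x := s)
    rwa [card_mz] at h1
  have hu : orderOf u = P' := by
    have h1 : orderOf u ∣ P' := orderOf_dvd_of_pow_eq_one (congrArg Prod.snd hsuP)
    rcases (Nat.dvd_prime hP').1 h1 with h2 | h2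
    · exfalso
      have h3 : u = 1 := orderOf_eq_one_iff.1 h2
      rw [hs, h3] at hsu
      have h4 : orderOf ((1 : Multiplicative (ZMod P)), (1 : G ⧸ zpowers y)) = 1 := orderOf_one
      rw [h4] at hsu
      exact hP'.one_lt.ne hsu
    · exact h2
  have hucen : ∀ x : G ⧸ zpowers y, x * u = u * x := fun x => congrArg Prod.snd (hc (1, x))
  have hun : (zpowers u).Normal := Inv.normal fun g => Or.inl (by rw [hucen g, mul_inv_cancel_right])
  -- the image of `y'` lies in `⟨u⟩`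
  have hmem : (y' : G ⧸ zpowers y) ∈ zpowers u := by
    rw [← QuotientGroup.eq_one_iff]
    have hcu : Nat.card (zpowers u) = P' := by rw [Nat.card_zpowers, hu]
    have hcc : Nat.card ((G ⧸ zpowers y) ⧸ zpowers u) * P' = Nat.card (G ⧸ zpowers y) := by
      rw [Subgroup.card_eq_card_quotient_mul_card_subgroup (zpowers u), hcu]
    refine eq_one_of_coprime (a := P') (b := Nat.card ((G ⧸ zpowers y) ⧸ zpowers u)) ?_ ?_ pow_card_eq_one'
    · refine (Nat.Prime.coprime_iff_not_dvd hP').2 ?_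
      rintro ⟨t, ht⟩
      apply hsq'
      rw [← hcard, ← hcc, ht]
      exact ⟨P * t, by ring⟩
    · have h1 : y' ^ P' = 1 := by rw [← hy']; exact pow_orderOf_eq_one _
      have h2 : ((y' : G ⧸ zpowers y) : (G ⧸ zpowers y) ⧸ zpowers u) ^ P' =
          (((y' ^ P' : G) : G ⧸ zpowers y) : (G ⧸ zpowers y) ⧸ zpowers u) := rfl
      rw [h2, h1]
      rfl
  refine ⟨y', hy', fun g => ?_⟩
  have hcom : ∀ x : G ⧸ zpowers y, x * (y' : G ⧸ zpowers y) = (y' : G ⧸ zpowers y) * x := by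
    intro x
    obtain ⟨i, hi⟩ := mem_zpowers_iff.1 hmem
    rw [← hi]
    exact ((show Commute x u from hucen x).zpow_right i)
  have h1 : g * y' * g⁻¹ * y'⁻¹ ∈ zpowers y := by
    rw [← QuotientGroup.eq_one_iff]
    show (g : G ⧸ zpowers y) * (y' : G ⧸ zpowers y) * (g : G ⧸ zpowers y)⁻¹ * (y' : G ⧸ zpowers y)⁻¹ = 1
    rw [hcom, mul_inv_cancel_right, mul_inv_cancel]
  have h2 : g * y' * g⁻¹ * y'⁻¹ ∈ zpowers y' := by
    refine mul_mem ?_ (inv_mem (mem_zpowers y'))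
    exact (Inv.normal hact').conj_mem _ (mem_zpowers y') g
  have h3 : g * y' * g⁻¹ * y'⁻¹ = 1 := by
    refine eq_one_of_coprime hcop ?_ ?_
    · obtain ⟨i, hi⟩ := mem_zpowers_iff.1 h1
      rw [← hi, ← hy, ← zpow_natCast, ← zpow_mul, mul_comm, zpow_mul, zpow_natCast, pow_orderOf_eq_one, one_zpow]
    · obtain ⟨i, hi⟩ := mem_zpowers_iff.1 h2
      rw [← hi, ← hy', ← zpow_natCast, ← zpow_mul, mul_comm, zpow_mul, zpow_natCast, pow_orderOf_eq_one, one_zpow]
  rw [mul_inv_eq_one, mul_inv_eq_iff_eq_mul] at h3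
  exact h3

/-- The group with the structure `g`. -/
def GT (n : ℕ) (_ : Group (Fin n)) : Type := Fin n

instance (n : ℕ) (g : Group (Fin n)) : Group (GT n g) := g

instance (n : ℕ) (g : Group (Fin n)) : Finite (GT n g) := inferInstanceAs (Finite (Fin n))

theorem card_GT (n : ℕ) (g : Group (Fin n)) : Nat.card (GT n g) = n := Nat.card_fin n

/-- Isomorphism of group structures. -/
def isoSetoid (n : ℕ) : Setoid (Group (Fin n)) where
  r g h := Nonempty (GT n g ≃* GT n h)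
  iseqv := ⟨fun _ => ⟨MulEquiv.refl _⟩, fun ⟨e⟩ => ⟨e.symm⟩, fun ⟨e⟩ ⟨f⟩ => ⟨e.trans f⟩⟩

/-- The isomorphism classes of groups of order `n`. -/
def Cls (n : ℕ) : Type := Quotient (isoSetoid n)

/-- A representative. -/
noncomputable def Cls.out {n : ℕ} (c : Cls n) : Group (Fin n) := Quotient.out (s := isoSetoid n) c

instance (n : ℕ) : Finite (Group (Fin n)) := by
  refine Finite.of_injective (fun g : Group (Fin n) => fun x y : Fin n => g.mul x y) ?_
  intro g h hgh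
  exact Group.ext hgh

instance (n : ℕ) : Finite (Cls n) := inferInstanceAs (Finite (Quotient (isoSetoid n)))

/-- Every group of order `n` has a class. -/
theorem exists_cls {n : ℕ} (G : Type) [Group G] [Finite G] (hG : Nat.card G = n) :
    ∃ d : Cls n, Nonempty (GT n (Cls.out d) ≃* G) := by
  have e : Fin n ≃ G := (Finite.equivFinOfCardEq hG).symm
  let g : Group (Fin n) := e.group
  have h0 : ∀ x y : GT n g, e (x * y) = e x * e y := by
    intro x y
    show e (e.symm (e x * e y)) = e x * e y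
    rw [Equiv.apply_symm_apply]
  have h1 : GT n g ≃* G := MulEquiv.mk e h0
  refine ⟨Quotient.mk (isoSetoid n) g, ?_⟩
  obtain ⟨f⟩ : Nonempty (GT n (Cls.out (Quotient.mk (isoSetoid n) g)) ≃* GT n g) :=
    Quotient.exact (s := isoSetoid n) (Quotient.out_eq (Quotient.mk (isoSetoid n) g))
  exact ⟨f.trans h1⟩

theorem cls_eq {n : ℕ} {c d : Cls n} (e : GT n (Cls.out c) ≃* GT n (Cls.out d)) : c = d := by
  have h1 : Quotient.mk (isoSetoid n) (Cls.out c) = c := Quotient.out_eq c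
  have h2 : Quotient.mk (isoSetoid n) (Cls.out d) = d := Quotient.out_eq d
  rw [← h1, ← h2]
  exact Quotient.sound (s := isoSetoid n) ⟨e⟩

/-- The number of classes for which no prime of `𝒬` is central. -/
theorem count {n : ℕ} (𝒬 : Finset ℕ) (h𝒬 : ∀ P ∈ 𝒬, P.Prime ∧ P ≠ 2 ∧ ¬ P ^ 2 ∣ n)
    (hact : ∀ P ∈ 𝒬, ∀ (G : Type) [Group G] [Finite G], Nat.card G = n → Inv P G) :
    𝒬.card * Set.ncard {c : Cls n | ∀ P ∈ 𝒬, ¬ Cen P (GT n (Cls.out c))} ≤
      2 ^ n.factorization 2 * Nat.card (Cls n) := by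
  classical
  have : Fintype (Cls n) := Fintype.ofFinite _
  obtain ⟨Bad, hBad⟩ : ∃ Bad : Finset (Cls n), Bad =
      (Finset.univ : Finset (Cls n)).filter fun c => ∀ P ∈ 𝒬, ¬ Cen P (GT n (Cls.out c)) := ⟨_, rfl⟩
  have hB : Set.ncard {c : Cls n | ∀ P ∈ 𝒬, ¬ Cen P (GT n (Cls.out c))} = Bad.card := by
    rw [← Set.ncard_coe_finset, hBad]
    congr 1
    ext c
    constructor
    · intro h
      exact Finset.mem_coe.2 (Finset.mem_filter.2 ⟨Finset.mem_univ _, h⟩)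
    · intro h
      exact (Finset.mem_filter.1 (Finset.mem_coe.1 h)).2
  rw [hB, ← Finset.card_product]
  -- the map
  have key : ∀ (P : ℕ) (c : Cls n), P ∈ 𝒬 → ∃ (d : Cls n) (H : Type) (_ : Group H) (_ : Finite H),
      P * Nat.card H = n ∧ Nonempty (GT n (Cls.out d) ≃* Multiplicative (ZMod P) × H) ∧
      (∃ χ : H →* ℤˣ, Nonempty (GT n (Cls.out c) ≃* Multiplicative (ZMod P) ⋊[(sgnAct _).comp χ] H)) ∧
      ∀ P' ∈ 𝒬, P' ≠ P → Cen P' (GT n (Cls.out d)) → Cen P' (GT n (Cls.out c)) := by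
    intro P c hP
    obtain ⟨h1, h2, h3⟩ := h𝒬 P hP
    obtain ⟨H, iH, fH, hc, hχ, hcen⟩ := exists_phi h1 h2 h3 (GT n (Cls.out c)) (card_GT _ _)
      (hact P hP _ (card_GT _ _))
    have : NeZero P := ⟨h1.ne_zero⟩
    obtain ⟨d, ⟨e⟩⟩ := exists_cls (n := n) (Multiplicative (ZMod P) × H) (by
      rw [Nat.card_prod, card_mz, hc])
    refine ⟨d, H, iH, fH, hc, ⟨e⟩, hχ, fun P' hP' hne hC => ?_⟩
    exact hcen P' (h𝒬 P' hP').1 hne (h𝒬 P' hP').2.2 (hact P' hP' _ (card_GT _ _)) (hC.equiv e)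
  rcases isEmpty_or_nonempty (Cls n) with hemp | hne
  · have h0 : Bad = ∅ := Finset.eq_empty_of_forall_notMem fun c _ => hemp.elim c
    rw [h0, Finset.product_empty, Finset.card_empty]
    exact Nat.zero_le _
  choose! F hF using key
  rw [Nat.card_eq_fintype_card, ← Finset.card_univ]
  refine Finset.card_le_mul_card_image_of_maps_to (f := fun x : ℕ × Cls n => F x.1 x.2)
    (fun x _ => Finset.mem_univ _) _ fun d _ => ?_
  rcases Finset.eq_empty_or_nonempty ((𝒬 ×ˢ Bad).filter fun x => F x.1 x.2 = d) with h0 | ⟨⟨P, c₀⟩, h0⟩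
  · rw [h0, Finset.card_empty]; exact Nat.zero_le _
  rw [Finset.mem_filter, Finset.mem_product] at h0
  obtain ⟨⟨hP, hc₀⟩, hd⟩ := h0
  simp only at hP hc₀ hd
  have hPp := (h𝒬 P hP).1
  have hBc : ∀ c ∈ Bad, ∀ P ∈ 𝒬, ¬ Cen P (GT n (Cls.out c)) := by
    intro c hc
    rw [hBad, Finset.mem_filter] at hc
    exact hc.2
  have hcenZ : ∀ (P : ℕ) (H : Type) [Group H], P.Prime → Cen P (Multiplicative (ZMod P) × H) := by
    intro P H _ hP
    have : Fact P.Prime := ⟨hP⟩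
    refine ⟨(Multiplicative.ofAdd 1, 1), ?_, fun g => ?_⟩
    · have h1 : orderOf ((Multiplicative.ofAdd (1 : ZMod P), (1 : H))) =
          orderOf (Multiplicative.ofAdd (1 : ZMod P)) :=
        orderOf_injective (MonoidHom.inl (Multiplicative (ZMod P)) H) (fun a b hab => congrArg Prod.fst hab) _
      rw [h1, orderOf_ofAdd_eq_addOrderOf, ZMod.addOrderOf_one]
    · refine Prod.ext (mul_comm _ _) ?_
      show g.2 * 1 = 1 * g.2
      rw [mul_one, one_mul]
  obtain ⟨H, iH, fH, hcH, ⟨e₀⟩, -, hcen₀⟩ := hF P c₀ hP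
  -- all elements of the fibre have the same prime
  have hfst : ∀ x ∈ (𝒬 ×ˢ Bad).filter fun x => F x.1 x.2 = d, x.1 = P := by
    rintro ⟨P', c'⟩ hx
    rw [Finset.mem_filter, Finset.mem_product] at hx
    obtain ⟨⟨hP', hc'⟩, hd'⟩ := hx
    simp only at hP' hc' hd' ⊢
    by_contra hne
    obtain ⟨H', iH', fH', -, ⟨e'⟩, -, -⟩ := hF P' c' hP'
    have h1 : Cen P' (GT n (Cls.out d)) := by
      rw [← hd']
      exact (hcenZ P' H' (h𝒬 P' hP').1).equiv e'.symm
    rw [← hd] at h1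
    exact hBc c₀ hc₀ P' hP' (hcen₀ P' hP' hne h1)
  -- the characters
  have hχ : ∀ x ∈ (𝒬 ×ˢ Bad).filter fun x => F x.1 x.2 = d, ∃ χ : H →* ℤˣ,
      Nonempty (GT n (Cls.out x.2) ≃* Multiplicative (ZMod P) ⋊[(sgnAct _).comp χ] H) := by
    rintro ⟨P', c'⟩ hx
    have h1 := hfst _ hx
    simp only at h1
    subst h1
    rw [Finset.mem_filter, Finset.mem_product] at hx
    obtain ⟨⟨hP', hc'⟩, hd'⟩ := hx
    simp only at hP' hc' hd' ⊢
    obtain ⟨H', iH', fH', hcH', ⟨e'⟩, ⟨χ, ⟨f⟩⟩, -⟩ := hF P' c' hP'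
    rw [hd'] at e'
    rw [hd] at e₀
    have : NeZero P' := ⟨hPp.ne_zero⟩
    have hcop : (Nat.card (Multiplicative (ZMod P'))).Coprime (Nat.card H') := by
      rw [card_mz]
      refine (Nat.Prime.coprime_iff_not_dvd hPp).2 ?_
      rintro ⟨t, ht⟩
      apply (h𝒬 P' hP').2.2
      rw [← hcH', ht]
      exact ⟨t, by ring⟩
    obtain ⟨ι⟩ := cancel hcop (e'.symm.trans e₀)
    refine ⟨χ.comp ι.symm.toMonoidHom, ⟨f.trans (SemidirectProduct.congr (MulEquiv.refl _) ι ?_)⟩⟩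
    intro h
    ext x
    show x ^ ((χ h : ℤˣ) : ℤ) = x ^ ((χ (ι.symm (ι h)) : ℤˣ) : ℤ)
    rw [MulEquiv.symm_apply_apply]
  choose! χ hχ using hχ
  have hfin : Finite (H →* ℤˣ) := by
    refine Finite.of_injective (fun f : H →* ℤˣ => (f : H → ℤˣ)) DFunLike.coe_injective
  have : Fintype (H →* ℤˣ) := Fintype.ofFinite _
  have h1 : ((𝒬 ×ˢ Bad).filter fun x => F x.1 x.2 = d).card ≤ Nat.card (H →* ℤˣ) := by
    rw [Nat.card_eq_fintype_card, ← Finset.card_univ]
    refine Finset.card_le_card_of_injOn χ (fun x _ => Finset.mem_coe.2 (Finset.mem_univ _)) ?_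
    rintro ⟨P₁, c₁⟩ hx₁ ⟨P₂, c₂⟩ hx₂ h12
    rw [Finset.mem_coe] at hx₁ hx₂
    have h2 := hfst _ hx₁
    have h3 := hfst _ hx₂
    obtain ⟨f₁⟩ := hχ _ hx₁
    obtain ⟨f₂⟩ := hχ _ hx₂
    rw [h12] at f₁
    have h4 := cls_eq (f₁.trans f₂.symm)
    simp only at h2 h3 h4
    rw [h2, h3, h4]
  refine h1.trans (card_hom_le.trans (Nat.pow_le_pow_right (by norm_num) ?_))
  have hn0 : n ≠ 0 := by
    rw [← hcH]
    exact Nat.mul_ne_zero hPp.ne_zero Nat.card_pos.ne'
  exact (Nat.factorization_le_iff_dvd Nat.card_pos.ne' hn0).2 ⟨P, by rw [← hcH, mul_comm]⟩ 2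

end Pool.Agent.Lib.MP_688fd0_co.SQ3
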