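import Pool.Agent.Lib.MP_688fd0_co.SQ3.H23.FinalDefs

/-!
Row BIGPR: almost all integers have many large primes `P` with `BigP t n P`.
-/

set_option autoImplicit false

namespace Pool.Agent.Lib.MP_688fd0_co.SQ3

open Classical in
/-- Almost all integers `n` have at least `R * 2 ^ v₂(n)` primes `P` with `BigP t n P`. -/
def BigPRS : Prop :=
  ∀ (t R : ℕ) (ε : ℝ), 2 ≤ t → 0 < ε → ∃ x₀ : ℕ, ∀ x ≥ x₀,
    (((Finset.Icc 1 x).filter (fun n => ¬ ∃ 𝒬 : Finset ℕ, R * 2 ^ n.factorization 2 ≤ 𝒬.card ∧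
      ∀ P ∈ 𝒬, BigP t n P)).card : ℝ) ≤ ε * x

end Pool.Agent.Lib.MP_688fd0_co.SQ3
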