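import Pool.Agent.Lib.MP_688fd0_co.SQ3.H23.CountB
import Pool.Agent.Lib.MP_688fd0_co.SQ3.H23.CountDefs
import Pool.Agent.Lib.MP_688fd0_co.SQ3.H23.Final

/-!
Counting groups, part C: almost all groups of almost all orders.
-/

set_option autoImplicit false

namespace Pool.Agent.Lib.MP_688fd0_co.SQ3

open Pool.Agent.Lib.MP_688fd0_co.OSF
open Subgroup

theorem almost_bigPR (hB : BigPRS) {t : ℕ} (ht : 2 ≤ t) (R : ℕ) : AlmostAll fun n =>
    ∃ 𝒬 : Finset ℕ, R * 2 ^ n.factorization 2 ≤ 𝒬.card ∧ ∀ P ∈ 𝒬, BigP t n P :=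
  fun ε hε => hB t R ε ht hε

/-- Almost all groups of almost all orders. -/
theorem almostG (hM : MainS) (hN : NiceMS) (hB : BigPRS) (R : ℕ) : AlmostAll fun n =>
    R * Set.ncard {c : Cls n | ¬ ∀ A : Set (GT n (Cls.out c)), (∀ x ∈ A, x⁻¹ ∈ A) → closure A = ⊤ → Lst A} ≤
      Nat.card (Cls n) := by
  obtain ⟨c, h⟩ := listingC.{0} hM
  refine ((almost_good hN c (t := 2) (by omega)).and (almost_bigPR hB le_rfl R)).mono ?_
  rintro n hn ⟨h1, 𝒬, h𝒬, hP⟩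
  have hgood : ∀ P ∈ 𝒬, Good c n P := fun P hPQ =>
    h1 P (Nat.prime_of_mem_primeFactors (hP P hPQ).1) (Nat.dvd_of_mem_primeFactors (hP P hPQ).1) (hP P hPQ).2.2.2
  have hP2 : ∀ P ∈ 𝒬, P ≠ 2 := by
    rintro P hPQ rfl
    obtain ⟨k, m, hc, hPm, -⟩ := hgood 2 hPQ
    have hk : 0 < k := Nat.pos_of_ne_zero fun h0 => hn (by rw [hc.eq, h0, zero_mul])
    have := hc.big 2 hPm
    omega
  have h2 := count (n := n) 𝒬 (fun P hPQ => ⟨(hgood P hPQ).prime, hP2 P hPQ, (hgood P hPQ).sq⟩)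
    (fun P hPQ G _ _ hG => by
      subst hG
      exact act_of_bigP (hgood P hPQ) (hP P hPQ))
  have h3 : Set.ncard {c : Cls n | ¬ ∀ A : Set (GT n (Cls.out c)), (∀ x ∈ A, x⁻¹ ∈ A) → closure A = ⊤ → Lst A} ≤
      Set.ncard {c : Cls n | ∀ P ∈ 𝒬, ¬ Cen P (GT n (Cls.out c))} := by
    refine Set.ncard_le_ncard ?_ (Set.toFinite _)
    intro d hd P hPQ hC
    refine hd fun A hA hgen => ?_
    exact h _ P (by rw [card_GT]; exact hgood P hPQ) hC A hA hgen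
  have h4 : 0 < 2 ^ n.factorization 2 := by positivity
  refine Nat.le_of_mul_le_mul_left ?_ h4
  refine le_trans ?_ h2
  calc 2 ^ n.factorization 2 * (R * Set.ncard {c : Cls n | ¬ ∀ A : Set (GT n (Cls.out c)), (∀ x ∈ A, x⁻¹ ∈ A) →
        closure A = ⊤ → Lst A})
      = (R * 2 ^ n.factorization 2) * Set.ncard {c : Cls n | ¬ ∀ A : Set (GT n (Cls.out c)),
        (∀ x ∈ A, x⁻¹ ∈ A) → closure A = ⊤ → Lst A} := by ring
    _ ≤ _ := Nat.mul_le_mul h𝒬 h3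

end Pool.Agent.Lib.MP_688fd0_co.SQ3
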