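import Pool.Agent.Lib.MP_688fd0_co.SQ2.H41.Defs

/-!
FINAL-E: orders with a cut with a margin, and their density (rows NICE-E).
-/

set_option autoImplicit false

namespace Pool.Agent.Lib.MP_688fd0_co.SQ3

open Pool.Agent.Lib.MP_688fd0_co.SQ2

/-- A cut with a margin. -/
structure CutE (n k m : ℕ) : Prop extends CutD n k m where
  marg : ∀ p ∈ m.primeFactors, (n.primeFactorsList.length + 2) ^ 10 < p

/-- `P` is a good prime divisor of `n`. -/
def Good (c n P : ℕ) : Prop :=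
  ∃ k m, CutE n k m ∧ P ∈ m.primeFactors ∧ 2 ^ ((k + n.primeFactorsList.length) ^ c) ≤ P

/-- `n` has a cut with small `k`. -/
def NiceM (c n : ℕ) : Prop :=
  ∃ k m, CutE n k m ∧ (k + n.primeFactorsList.length) ^ c ≤ Nat.log 2 n

open Classical in
/-- NICE-E, first part: almost all integers have a cut with a margin and small `k`. -/
def NiceMS : Prop :=
  ∀ (c : ℕ) (ε : ℝ), 0 < ε → ∃ x₀ : ℕ, ∀ x ≥ x₀,
    (((Finset.Icc 1 x).filter (fun n => ¬ NiceM c n)).card : ℝ) ≤ ε * x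

/-- A large prime divisor `P ≡ 3 mod 4` of `n` such that no odd prime divisor of `n` divides `P - 1`. -/
def BigP (t n P : ℕ) : Prop :=
  P ∈ n.primeFactors ∧ (∀ q ∈ n.primeFactors, q ∣ P - 1 → q = 2) ∧ ¬ 4 ∣ P - 1 ∧ Nat.log 2 n ≤ Nat.log 2 P ^ t

open Classical in
/-- NICE-E, second part: almost all integers have such a prime divisor, as large as `2 ^ ((log₂ n) ^ (1 / t))`. -/
def BigPS : Prop :=
  ∀ (t : ℕ) (ε : ℝ), 2 ≤ t → 0 < ε → ∃ x₀ : ℕ, ∀ x ≥ x₀,
    (((Finset.Icc 1 x).filter (fun n => ¬ ∃ P, BigP t n P)).card : ℝ) ≤ ε * x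

/-- A large divisor is in the second part of the cut. -/
theorem good_of {c t n P : ℕ} (hn : n ≠ 0) (ht : 0 < t) (h : NiceM (t * (c + 1)) n) (hP : P.Prime) (hPn : P ∣ n)
    (hl : Nat.log 2 n ≤ Nat.log 2 P ^ t) : Good c n P := by
  obtain ⟨k, m, hc, hk⟩ := h
  have hP0 : P ≠ 0 := hP.ne_zero
  have h1 : ((k + n.primeFactorsList.length) ^ (c + 1)) ^ t ≤ Nat.log 2 P ^ t := by
    rw [← pow_mul, mul_comm (c + 1) t]
    exact hk.trans hl
  have h2 : (k + n.primeFactorsList.length) ^ (c + 1) ≤ Nat.log 2 P := by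
    by_contra h3
    push Not at h3
    exact absurd h1 (not_le.2 (Nat.pow_lt_pow_left h3 ht.ne'))
  have hω : 1 ≤ n.primeFactorsList.length :=
    List.length_pos_of_mem ((Nat.mem_primeFactorsList hn).2 ⟨hP, hPn⟩)
  have hk1 : 0 < k := Nat.pos_of_ne_zero fun h0 => hn (by rw [hc.eq, h0, zero_mul])
  have h3 : (k + n.primeFactorsList.length) ^ c ≤ Nat.log 2 P := by
    refine le_trans (Nat.pow_le_pow_right (by omega) (Nat.le_succ c)) h2
  have h4 : 2 ^ Nat.log 2 P ≤ P := Nat.pow_log_le_self 2 hP0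
  refine ⟨k, m, hc, ?_, (Nat.pow_le_pow_right (by norm_num) h3).trans h4⟩
  have h5 : P ∣ k * m := hc.eq ▸ hPn
  rcases hP.dvd_mul.1 h5 with h6 | h6
  · exfalso
    have h7 := Nat.le_of_dvd hk1 h6
    have h8 : k + n.primeFactorsList.length ≤ (k + n.primeFactorsList.length) ^ (c + 1) :=
      Nat.le_self_pow (by omega) _
    have h9 : Nat.log 2 P < P := Nat.log_lt_self 2 hP0
    omega
  · exact Nat.mem_primeFactors.2 ⟨hP, h6, hc.sq.ne_zero⟩

end Pool.Agent.Lib.MP_688fd0_co.SQ3
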