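import Pool.Agent.Lib.MP_688fd0_co.SQ3.Iface
import Pool.Agent.Lib.MP_688fd0_co.OSF.H74.Str
import Pool.Agent.Lib.MP_688fd0_co.OSF.H3.Main

/-!
STR-E: the structural theorem, from HEART, SCALE, KAP, DSTR, FACTOR2, SMALL.
-/

set_option autoImplicit false

namespace Pool.Agent.Lib.MP_688fd0_co.SQ3

open Pool.Agent.Lib.MP_688fd0_co.OSF Pool.Agent.Lib.MP_688fd0_co.SQ2
open Subgroup

section

variable {G : Type} [Group G] (M : Subgroup G) [M.Normal] (A : Set G) (hsym : ∀ x ∈ A, x⁻¹ ∈ A)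
    (h1 : ∀ g ∈ A, g ∈ M → g = 1)

theorem qLb_gen (hgen : closure A = ⊤) : closure (Set.range (qLb M A hsym h1).q) = ⊤ := by
  have hsur : Function.Surjective (QuotientGroup.mk' M) := QuotientGroup.mk'_surjective M
  have h2 : closure (QuotientGroup.mk' M '' A) = ⊤ := by
    rw [← MonoidHom.map_closure, hgen, ← MonoidHom.range_eq_map, MonoidHom.range_eq_top]
    exact hsur
  rw [eq_top_iff, ← h2, closure_le]
  rintro _ ⟨g, hg, rfl⟩
  by_cases hg1 : g = 1
  · rw [hg1, map_one]; exact one_mem _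
  · exact subset_closure ⟨⟨g, hg, hg1⟩, rfl⟩

/-- A homomorphism between the quotients. -/
theorem qLb_fin (M' : Subgroup G) [M'.Normal] (h1' : ∀ g ∈ A, g ∈ M' → g = 1) (φ : G ⧸ M →* G ⧸ M')
    (hφ : ∀ g : G, φ (g : G ⧸ M) = (g : G ⧸ M')) (l : List {g : G // g ∈ A ∧ g ≠ 1}) (x : G ⧸ M) :
    φ ((qLb M A hsym h1).fin x l) = (qLb M' A hsym h1').fin (φ x) l := by
  induction l generalizing x with
  | nil => rfl
  | cons g l ih =>
    have h2 := ih (x * (g.1 : G ⧸ M))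
    rw [map_mul, hφ] at h2
    exact h2

end

theorem needW_mono' {ρ r r' k c : ℕ} (h : r ≤ r') : needW ρ r k c ≤ needW ρ r' k c := by
  unfold needW
  have h1 : 2 ^ r ≤ 2 ^ r' := Nat.pow_le_pow_right (by norm_num) h
  gcongr

theorem P_ne_two {G : Type*} [Group G] [Finite G] {N C : Subgroup G} {eps : G →* ℤˣ} {k P : ℕ}
    (h : SQ2.H41.GNE N C eps k P) : 4 < P := by
  have hk : 0 < k := by
    rw [← h.idx]
    exact Nat.pos_of_ne_zero N.index_ne_zero_of_finite
  have h1 := (h.big P (Nat.mem_primeFactors.2 ⟨h.prime, h.dvd, Nat.card_pos.ne'⟩)).1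
  omega

/-- An element whose order is divisible by `P` has `eps a = 1`. -/
theorem eps_one {G : Type*} [Group G] [Finite G] {N C : Subgroup G} {eps : G →* ℤˣ} {k P : ℕ}
    (h : SQ2.H41.GNE N C eps k P) {a : G} (ha : P ∣ orderOf a) : eps a = 1 := by
  have hP := h.prime
  have hk : 0 < k := by
    rw [← h.idx]
    exact Nat.pos_of_ne_zero N.index_ne_zero_of_finite
  have hPk : ¬ P ∣ k := fun h' => hP.one_lt.ne' (Nat.eq_one_of_dvd_coprimes h.cop h.dvd h')
  obtain ⟨t, ht⟩ := ha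
  have ht0 : 0 < t := by
    have := orderOf_pos a
    rw [ht] at this
    exact Nat.pos_of_ne_zero fun h0 => by rw [h0, mul_zero] at this; exact absurd this (lt_irrefl 0)
  have hy : orderOf (a ^ t) = P := by
    rw [orderOf_pow_of_dvd ht0.ne' ⟨P, by rw [ht, mul_comm]⟩, ht]
    exact Nat.mul_div_cancel _ ht0
  have hyN : a ^ t ∈ N := by
    have hNn := h.Nn
    rw [← QuotientGroup.eq_one_iff]
    have h1 : orderOf ((a ^ t : G) : G ⧸ N) ∣ P := by
      rw [← hy]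
      exact orderOf_map_dvd (QuotientGroup.mk' N) _
    have h2 : orderOf ((a ^ t : G) : G ⧸ N) ∣ k := by
      rw [← h.idx]
      exact orderOf_dvd_natCard _
    have h3 : orderOf ((a ^ t : G) : G ⧸ N) ≠ P := fun h3 => hPk (h3 ▸ h2)
    rcases (Nat.dvd_prime hP).1 h1 with h4 | h4
    · exact orderOf_eq_one_iff.1 h4
    · exact absurd h4 h3
  by_contra hne
  have hm : eps a = -1 := (Int.units_eq_one_or (eps a)).resolve_left hne
  have h1 := h.act _ hyN a
  have h2 : a * a ^ t * a⁻¹ = a ^ t := by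
    rw [← pow_succ', pow_succ, mul_inv_cancel_right]
  rw [h2, hm, Units.val_neg, Units.val_one, zpow_neg_one, inv_inv, ← pow_two] at h1
  apply h.ndvd
  have h3 : orderOf ((a ^ t) ^ 2) = P := by
    rw [Nat.Coprime.orderOf_pow, hy]
    rw [hy]
    refine (Nat.Prime.coprime_iff_not_dvd hP).2 fun h4 => ?_
    have := Nat.le_of_dvd (by norm_num) h4
    have := P_ne_two h
    omega
  have h4 := orderOf_dvd_natCard (⟨_, h1⟩ : C)
  rwa [Subgroup.orderOf_mk, h3] at h4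

/-- The normal subgroup of order `P` of `G / C`. -/
theorem exists_Y {G : Type} [Group G] [Finite G] {N C : Subgroup G} [C.Normal] {eps : G →* ℤˣ} {k P : ℕ}
    (h : SQ2.H41.GNE N C eps k P) (eps' : G ⧸ C →* ℤˣ) (he : ∀ g, eps' (QuotientGroup.mk' C g) = eps g) :
    ∃ Y : Subgroup (G ⧸ C), Y.Normal ∧ Nat.card Y = P ∧
      ∀ y ∈ Y, ∀ g : G ⧸ C, g * y * g⁻¹ = y ^ ((eps' g : ℤˣ) : ℤ) := by
  have hP := h.prime
  have : Fact P.Prime := ⟨hP⟩
  obtain ⟨⟨y, hyN⟩, hy⟩ := exists_prime_orderOf_dvd_card' (G := N) P h.dvd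
  rw [Subgroup.orderOf_mk] at hy
  have hact : ∀ y' ∈ zpowers (QuotientGroup.mk' C y), ∀ g : G ⧸ C, g * y' * g⁻¹ = y' ^ ((eps' g : ℤˣ) : ℤ) := by
    rintro y' hy' g
    obtain ⟨i, rfl⟩ := mem_zpowers_iff.1 hy'
    obtain ⟨g, rfl⟩ := QuotientGroup.mk'_surjective C g
    have h1 := h.act y hyN g
    rw [← QuotientGroup.eq_one_iff] at h1
    have h4 : QuotientGroup.mk' C (g * y * g⁻¹ * (y ^ ((eps g : ℤˣ) : ℤ))⁻¹) = 1 := h1
    rw [map_mul, map_inv, mul_inv_eq_one, map_mul, map_mul, map_inv, map_zpow] at h4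
    rw [he, ← zpow_mul, mul_comm, zpow_mul, ← h4, conj_zpow]
  have hY1 : QuotientGroup.mk' C y ≠ 1 := by
    intro h1
    have h2 : y ∈ C := (QuotientGroup.eq_one_iff y).1 h1
    apply h.ndvd
    have h4 := orderOf_dvd_natCard (⟨_, h2⟩ : C)
    rwa [Subgroup.orderOf_mk, hy] at h4
  refine ⟨zpowers (QuotientGroup.mk' C y), ⟨fun y' hy' g => ?_⟩, ?_, hact⟩
  · rw [hact y' hy' g]
    exact zpow_mem hy' _
  · rw [Nat.card_zpowers]
    have h1 : orderOf (QuotientGroup.mk' C y) ∣ P := by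
      rw [← hy]
      exact orderOf_map_dvd (QuotientGroup.mk' C) _
    rcases (Nat.dvd_prime hP).1 h1 with h4 | h4
    · exact absurd (orderOf_eq_one_iff.1 h4) hY1
    · exact h4

/-- The structure in the odd case. -/
theorem GN.odd {G : Type*} [Group G] [Finite G] {N C : Subgroup G} {eps : G →* ℤˣ} {k P : ℕ}
    (h : GN N C eps k P) (hodd : Odd (Nat.card G)) : SQ2.GN N C k P := by
  have heps : ∀ g, eps g = 1 := by
    intro g
    rcases Int.units_eq_one_or (eps g) with h1 | h1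
    · exact h1
    · exfalso
      have h2 : orderOf (eps g) ∣ Nat.card G := (orderOf_map_dvd eps g).trans (orderOf_dvd_natCard g)
      have h3 : orderOf (eps g) = 2 := by
        rw [h1]
        exact orderOf_eq_prime (by decide) (by decide)
      rw [h3] at h2
      exact Nat.not_even_iff_odd.2 hodd (even_iff_two_dvd.2 h2)
  refine ⟨h.Nn, h.Nc, h.CN, h.Cn, fun n hn g => ?_, h.idx, h.cop,
    h.Nsq.squarefree_of_dvd (card_dvd_of_le h.CN), h.Ccop, fun c hc hcc => ?_, h.prime, h.dvd, h.ndvd,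
    fun h1 => h.sq (h1.trans (card_subgroup_dvd_card N)), fun p hp => ?_⟩
  · have h1 := C.inv_mem (h.act n hn g)
    rw [heps, Units.val_one, zpow_one] at h1
    have h2 : (g * n * g⁻¹ * n⁻¹)⁻¹ = n * g * n⁻¹ * g⁻¹ := by group
    rwa [h2] at h1
  · refine h.nact c hc fun g => ?_
    rw [heps, Units.val_one, zpow_one, ← hcc g, mul_inv_cancel_right]
  · have hpN := Nat.primeFactors_mono (card_dvd_of_le h.CN) Nat.card_pos.ne' hp
    refine ⟨(h.big p hpN).1, ?_⟩
    exact (h.big P (Nat.mem_primeFactors.2 ⟨h.prime, h.dvd, Nat.card_pos.ne'⟩)).2 p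
      (Nat.primeFactors_mono (card_subgroup_dvd_card N) Nat.card_pos.ne' hpN)

theorem str (hHe : HeartS) (hSc : ScaleS) (hK : KapS) (hD : DstrS) (hF : FactorS) (hS : SmallS)
    (hH : HdataS.{0}) (hM : Main3S) : StrS := by
  classical
  obtain ⟨c₁, hSc⟩ := hSc
  obtain ⟨c₂, hM⟩ := hM
  refine ⟨2 * c₁ + c₂, ?_⟩
  intro G _ _ N C eps k P A hg hsym hgen hA1 hPA hPb
  have := hg.Cn
  have := hg.Nn
  have hCle := hg.CN
  have hPp := hg.prime
  have hPG : P ∣ Nat.card G := hg.dvd.trans (card_subgroup_dvd_card N)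
  have hω : 1 ≤ (Nat.card G).primeFactorsList.length :=
    List.length_pos_of_mem ((Nat.mem_primeFactorsList Nat.card_pos.ne').2 ⟨hPp, hPG⟩)
  have hk : 1 ≤ k := by
    rw [← hg.idx]
    exact Nat.pos_of_ne_zero N.index_ne_zero_of_finite
  have hPk : ¬ P ∣ k := fun h =>
    hPp.one_lt.ne' (Nat.eq_one_of_dvd_coprimes hg.cop hg.dvd h)
  have hCsq : Squarefree (Nat.card C) := hg.Nsq.squarefree_of_dvd (card_dvd_of_le hCle)
  have hNodd : Odd (Nat.card N) := by
    rw [← Nat.not_even_iff_odd]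
    intro he
    have h1 := (hg.big 2 (Nat.mem_primeFactors.2 ⟨Nat.prime_two, even_iff_two_dvd.1 he, Nat.card_pos.ne'⟩)).1
    omega
  -- the choice of `a` in `G / C`
  obtain ⟨eps₀, heps₀⟩ : ∃ e : G ⧸ C →* ℤˣ, ∀ g, e (QuotientGroup.mk' C g) = eps g :=
    ⟨QuotientGroup.lift C eps fun c hc => hg.eN c (hCle hc), fun g => rfl⟩
  obtain ⟨Y, hYn, hYc, hYa⟩ := exists_Y hg.toGNE eps₀ heps₀
  have hPsq : ¬ P ^ 2 ∣ Nat.card (G ⧸ C) := fun h =>
    hg.sq (h.trans ⟨_, Subgroup.card_eq_card_quotient_mul_card_subgroup C⟩)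
  have hlift : ∀ (M : Subgroup G) [M.Normal], ¬ P ∣ Nat.card M → ∀ x : G, P ∣ orderOf x →
      P ∣ orderOf (QuotientGroup.mk' M x) := by
    intro M _ hM x hx
    have h1 : x ^ (orderOf (QuotientGroup.mk' M x) * Nat.card M) = 1 := by
      have h2 : x ^ orderOf (QuotientGroup.mk' M x) ∈ M := by
        rw [← QuotientGroup.eq_one_iff]
        show QuotientGroup.mk' M (x ^ _) = 1
        rw [map_pow, pow_orderOf_eq_one]
      rw [pow_mul]
      have h3 := pow_card_eq_one' (x := (⟨_, h2⟩ : M))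
      exact congrArg (fun y : M => (y : G)) h3
    exact (hPp.dvd_mul.1 (hx.trans (orderOf_dvd_of_pow_eq_one h1))).resolve_right hM
  set B₀ := qLb C A hsym hA1 with hB₀
  have hfinL : Finite B₀.L := inferInstanceAs (Finite {g : G // g ∈ A ∧ g ≠ 1})
  have hcard : Nat.card B₀.L ≤ Nat.card A := by
    refine Nat.card_le_card_of_injective (fun g : B₀.L => (⟨g.1, g.2.1⟩ : A)) ?_
    intro g h hgh
    exact Subtype.ext (congrArg (fun t : A => (t : G)) hgh)
  have hr : (Nat.card C).primeFactors.card ≤ (Nat.card G).primeFactorsList.length :=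
    (Finset.card_le_card (Nat.primeFactors_mono (card_subgroup_dvd_card _) Nat.card_pos.ne')).trans
      (List.toFinset_card_le _)
  obtain ⟨x, hx⟩ : ∃ x, x = k + Nat.card A + (Nat.card G).primeFactorsList.length := ⟨_, rfl⟩
  rw [← hx] at hPb
  have hx2 : 2 ≤ x := by omega
  rcases Nat.even_or_odd (Nat.card G) with heven | hodd
  swap
  · obtain ⟨a₀, ha₀, -⟩ := hPA
    refine hM G N C k P A (hg.odd hodd) hodd ⟨a₀, ha₀⟩ hsym hgen ?_
    refine le_trans (Nat.pow_le_pow_right (by norm_num) ?_) hPb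
    calc (k + (Nat.card G).primeFactorsList.length) ^ c₂ ≤ x ^ c₂ := Nat.pow_le_pow_left (by omega) c₂
      _ ≤ x ^ (2 * c₁ + c₂) := Nat.pow_le_pow_right (by omega) (by omega)
  have hPb1 : 2 ^ ((k + Nat.card B₀.L + 2 * (Nat.card C).primeFactors.card + 1) ^ c₁) ≤ P := by
    refine le_trans (Nat.pow_le_pow_right (by norm_num) ?_) hPb
    have h1 : k + Nat.card B₀.L + 2 * (Nat.card C).primeFactors.card + 1 ≤ x ^ 2 := by
      have h2 : x * 2 ≤ x * x := Nat.mul_le_mul_left x hx2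
      rw [pow_two]
      omega
    calc (k + Nat.card B₀.L + 2 * (Nat.card C).primeFactors.card + 1) ^ c₁ ≤ (x ^ 2) ^ c₁ :=
          Nat.pow_le_pow_left h1 c₁
      _ = x ^ (2 * c₁) := by rw [← pow_mul]
      _ ≤ x ^ (2 * c₁ + c₂) := Nat.pow_le_pow_right (by omega) (by omega)
  have hPA' : ∃ a₀ : B₀.L, P ∣ orderOf (B₀.q a₀) := by
    obtain ⟨a, haA, ha⟩ := hPA
    have ha1 : a ≠ 1 := by
      rintro rfl
      rw [orderOf_one, Nat.dvd_one] at ha
      exact hPp.one_lt.ne' ha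
    exact ⟨⟨a, haA, ha1⟩, hlift C hg.ndvd a ha⟩
  obtain ⟨⟨a, haA, ha1⟩, hPa, hsc⟩ := hSc (G ⧸ C) B₀ k (2 * (Nat.card C).primeFactors.card) P Y eps₀ hfinL
    (by omega) (qLb_gen C A hsym hA1 hgen) hPp hPk hYn hYc hYa hPsq hPA' hPb1
  have hPaG : P ∣ orderOf a := by
    have h1 : B₀.q ⟨a, haA, ha1⟩ = QuotientGroup.mk' C a := rfl
    rw [h1] at hPa
    exact hPa.trans (orderOf_map_dvd (QuotientGroup.mk' C) a)
  have hea : eps a = 1 := eps_one hg.toGNE hPaG
  -- the subgroup `C₁`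
  obtain ⟨C₁, hC₁⟩ : ∃ C₁, C₁ = C ⊓ Ecl eps a := ⟨_, rfl⟩
  have hC₁n : C₁.Normal := by rw [hC₁]; exact @Subgroup.normal_inf_normal _ _ _ _ _ normalClosure_normal
  have hC₁C : C₁ ≤ C := by rw [hC₁]; exact inf_le_left
  have hC₁E : C₁ ≤ Ecl eps a := by rw [hC₁]; exact inf_le_right
  have hC₁N := hC₁C.trans hCle
  have := hg.Nc
  have hcyc : IsCyclic C₁ := isCyclic_of_injective (inclusion hC₁N) (inclusion_injective hC₁N)
  have hC₁d : Nat.card C₁ ∣ Nat.card C := card_dvd_of_le hC₁C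
  have hcop : (Nat.card C₁).Coprime C₁.index := by
    rw [← relIndex_mul_index hC₁C]
    refine Nat.Coprime.mul_right ?_ (hg.Ccop.coprime_dvd_left hC₁d)
    have h1 : Nat.card C₁ * C₁.relIndex C = Nat.card C := by
      have h2 := (C₁.subgroupOf C).card_mul_index
      rwa [Nat.card_congr (subgroupOfEquivOfLe hC₁C).toEquiv] at h2
    have hsq := hCsq
    rw [← h1] at hsq
    exact Nat.coprime_of_squarefree_mul hsq
  have hA1' : ∀ g ∈ A, g ∈ C₁ → g = 1 := fun g h h' => hA1 g h (hC₁C h')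
  set B := qLb C₁ A hsym hA1' with hB
  obtain ⟨a', ha'⟩ : ∃ a' : B.L, a' = (⟨a, haA, ha1⟩ : {g : G // g ∈ A ∧ g ≠ 1}) := ⟨_, rfl⟩
  have hqa : B.q a' = QuotientGroup.mk' C₁ a := by rw [ha']; rfl
  let φ : G ⧸ C₁ →* G ⧸ C := QuotientGroup.map C₁ C (MonoidHom.id G) hC₁C
  have hφ : ∀ g : G, φ (g : G ⧸ C₁) = (g : G ⧸ C) := fun g => rfl
  have hφs : Function.Surjective φ := by
    intro y
    obtain ⟨g, rfl⟩ := QuotientGroup.mk_surjective y
    exact ⟨(g : G ⧸ C₁), rfl⟩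
  have hndvd : ¬ P ∣ Nat.card C₁ := fun h => hg.ndvd (h.trans hC₁d)
  obtain ⟨D, z, u, eps', hDn, hDk, heps', hDe, hz, hzm, huN, huz⟩ := hD G N C eps k P hg a C₁ hC₁n hC₁ hea
  have hD₀n : (D.map φ).Normal := hDn.map φ hφs
  have hD₀k : Nat.card (D.map φ) ∣ k := (card_map_dvd D φ).trans hDk
  obtain ⟨c, W, hSi, hSe, hLe, hW1, hW2⟩ := hsc (D.map φ) hD₀k hD₀n
  have hqq : ∀ b : B.L, φ (B.q b) = B₀.q b := fun b => rfl
  have hyp : Hyp B a' eps' D z k := by
    refine ⟨inferInstance, hfinL, qLb_gen C₁ A hsym hA1' hgen, hDn, hDk, hk, hDe, ?_, hz, ?_⟩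
    · rw [hqa, heps', hea]
    · rw [hqa]; exact hzm
  have hSi' : Sink B a' D W := by
    intro b j hj1 hj2 hmem
    refine hSi b j hj1 hj2 ?_
    have h9 := mem_map_of_mem φ hmem
    rw [map_mul, map_inv, map_zpow, hqq, hqq, ha'] at h9
    exact h9
  have hSe' : Sep B a' D c W := by
    intro l j hl hj1 hj2 hmem
    refine hSe l j hl hj1 hj2 ?_
    have h9 := mem_map_of_mem φ hmem
    rw [map_mul, map_inv, map_zpow, hqq, ha'] at h9
    have h10 : φ (B.fin 1 l) = B₀.fin 1 l := by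
      have := qLb_fin C₁ A hsym hA1' C hA1 φ hφ l 1
      rwa [map_one] at this
    rw [h10] at h9
    exact h9
  have hLe' : Lev B a' D W := by
    intro j hj1 hj2 hmem
    refine hLe j hj1 hj2 ?_
    have h9 := mem_map_of_mem φ hmem
    rw [map_zpow, hqq, ha'] at h9
    exact h9
  have hoa : P ≤ orderOf (B.q a' ^ k) := by
    have h9 : P ∣ orderOf (B.q a') := by rw [hqa]; exact hlift C₁ hndvd a hPaG
    have h11 : P ∣ orderOf (B.q a' ^ k) := by
      have h12 : B.q a' ^ (k * orderOf (B.q a' ^ k)) = 1 := by rw [pow_mul, pow_orderOf_eq_one]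
      have h13 := h9.trans (orderOf_dvd_of_pow_eq_one h12)
      exact (hPp.dvd_mul.1 h13).resolve_left hPk
    exact Nat.le_of_dvd (orderOf_pos _) h11
  have hWn : needW (Nat.card B.L) (2 * (Nat.card C₁).primeFactors.card) k c ≤ W :=
    (needW_mono' (Nat.mul_le_mul_left 2
      (Finset.card_le_card (Nat.primeFactors_mono hC₁d Nat.card_pos.ne')))).trans hW1
  by_cases hidx : (zpowers (B.q a')).index ≤ 2
  · refine hS G N C eps k P A hsym C₁ hC₁n hA1' a' eps' D z u c W heven hg hgen hA1 ?_ ?_ heps' huN huz hyp hidx hSi' hSe'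
      hLe' hWn (lt_of_lt_of_le hW2 hoa)
    · rw [ha']; exact hPaG
    · rw [ha']; exact hC₁
  -- the heart
  obtain ⟨s, zz, chi, ν, h1, h2, h3, h4, h5, h6, h7, h8⟩ := hH G C₁ hC₁n hcyc hcop
  have hm0 : 0 < Nat.card C₁ := Nat.card_pos
  have : NeZero (Nat.card C₁) := ⟨hm0.ne'⟩
  have : Fintype (G ⧸ C₁) := Fintype.ofFinite _
  let V : Vd B (ZMod (Nat.card C₁)) :=
    { chi := chi
      n := fun g => ν g.1
      n_inv := fun g => h6 g.1 }
  have hecomp : eps'.comp (QuotientGroup.mk' C₁) = eps := MonoidHom.ext heps'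
  have hC₁odd : Odd (Nat.card C₁) := Odd.of_dvd_nat hNodd (card_dvd_of_le hC₁N)
  have hkap : ∀ p, ∀ hp : p ∈ (Nat.card C₁).primeFactors,
      KapC (V.map (red (Nat.dvd_of_mem_primeFactors hp))) a' eps' := by
    intro p hp
    have hν1 : ν 1 = 0 := by
      have h10 := h5 1
      rw [map_one, map_one, mul_one] at h10
      have h11 := orderOf_dvd_of_pow_eq_one h10.symm
      rw [h3] at h11
      have h12 : (ν 1).val < Nat.card C₁ := ZMod.val_lt _
      have h13 := Nat.eq_zero_of_dvd_of_lt h11 h12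
      exact (ZMod.val_eq_zero _).1 h13
    have := hK G C₁ hC₁n eps' A a s zz chi ν h1 h2 h3 h4 h5 hgen haA (hCsq.squarefree_of_dvd hC₁d) hC₁odd
      (by rw [heps', hea]) (fun c hc h => hg.nact c (hC₁C hc) fun g => by rw [h g, heps'])
      (by rw [hecomp]; exact hC₁E) p hp
    have hchi : (V.map (red (Nat.dvd_of_mem_primeFactors hp))).chi (B.q a') =
        red (Nat.dvd_of_mem_primeFactors hp) (chi (QuotientGroup.mk' C₁ a)) := by
      rw [hqa]; rfl
    rcases this with ⟨k1, t, htA, ht⟩ | ⟨k1, k2, t, htA, ht⟩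
    · left
      refine ⟨by rw [hchi]; exact k1, ?_⟩
      have ht1 : t ≠ 1 := by
        rintro rfl
        apply ht
        rw [hν1, map_one, map_one]
        simp
      refine ⟨(⟨t, htA, ht1⟩ : {g : G // g ∈ A ∧ g ≠ 1}), ?_⟩
      rw [Str.map_kap]
      have h9 : V.kap a' (⟨t, htA, ht1⟩ : {g : G // g ∈ A ∧ g ≠ 1}) = (chi (QuotientGroup.mk' C₁ a) - 1) * ν t -
          (chi (QuotientGroup.mk' C₁ t) - 1) * ν a := by
        rw [ha']; rfl
      rw [h9]
      exact ht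
    · right
      refine ⟨by rw [hchi]; exact k1, ?_, ?_⟩
      · rw [ha']; exact k2
      · have ht1 : t ≠ 1 := by
          rintro rfl
          apply ht
          rw [map_one, map_one, map_one, map_one]
          simp
        exact ⟨(⟨t, htA, ht1⟩ : {g : G // g ∈ A ∧ g ≠ 1}), ht⟩
  have hzchi : V.chi z = 1 := by
    show chi z = 1
    rw [← huz]
    refine h8 u fun c hc => ?_
    have hcn := hC₁N hc
    obtain ⟨w, hw⟩ := IsCyclic.exists_generator (α := N)
    obtain ⟨i, hi⟩ := mem_zpowers_iff.1 (hw ⟨u, huN⟩)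
    obtain ⟨j, hj⟩ := mem_zpowers_iff.1 (hw ⟨c, hcn⟩)
    have h9 : (⟨u, huN⟩ : N) * ⟨c, hcn⟩ = ⟨c, hcn⟩ * ⟨u, huN⟩ := by
      rw [← hi, ← hj, ← zpow_add, ← zpow_add, add_comm]
    exact congrArg Subtype.val h9
  have hmarg : ∀ p ∈ (Nat.card C₁).primeFactors, 4 * k < p ∧ 2 * (Nat.card C₁).primeFactors.card < p := by
    intro p hp
    have hpN := Nat.primeFactors_mono (hC₁d.trans (card_dvd_of_le hCle)) Nat.card_pos.ne' hp
    refine ⟨(hg.big p hpN).1, lt_of_le_of_lt ?_ (hg.marg p hpN)⟩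
    have h9 : (Nat.card C₁).primeFactors.card ≤ (Nat.card G).primeFactorsList.length :=
      (Finset.card_le_card (Nat.primeFactors_mono hC₁d Nat.card_pos.ne')).trans hr
    obtain ⟨y, hy⟩ : ∃ y, y = (Nat.card G).primeFactorsList.length + 2 := ⟨_, rfl⟩
    rw [← hy]
    have h10 : 2 * y ≤ y ^ 10 := by
      have h11 : 2 ≤ y := by omega
      calc 2 * y ≤ y * y := Nat.mul_le_mul_right y h11
        _ = y ^ 2 := by ring
        _ ≤ y ^ 10 := Nat.pow_le_pow_right (by omega) (by norm_num)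
    omega
  obtain ⟨T, hT⟩ := hHe (G ⧸ C₁) B a' eps' D z k hyp (by omega) c W hSi' hSe' hLe' (Nat.card C₁) V
    hC₁odd hzchi hmarg hkap hWn (lt_of_lt_of_le hW2 hoa)
  have hz1 : QuotientGroup.mk' C₁ zz = 1 := by
    rw [QuotientGroup.mk'_apply, QuotientGroup.eq_one_iff, ← h2]; exact mem_zpowers zz
  exact hF G (G ⧸ C₁) (Nat.card C₁) (QuotientGroup.mk' C₁) s zz chi ν hm0 h1 hz1 h3
    (fun g hg => by rw [h2]; exact (QuotientGroup.eq_one_iff g).1 hg) h4 h5 A (fun x => (T.lab x).1) T.cls hgen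
    (fun x => (T.lab x).2.1) T.bij T.step T.trans hT

end Pool.Agent.Lib.MP_688fd0_co.SQ3
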